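import Pool.Agent.Run7.h619.PR.Defs
import Pool.Agent.Run7.h619.AU.Defs

/-!
# Products `f × g`: definitions for the statements
-/

set_option autoImplicit false

open scoped Manifold ContDiff Topology

namespace Run7.h619.PR

open Pool.Agent.H718R2.G Pool.Agent.TH80.OMS Run7.h619.AA

section

variable {k b n : ℕ} {M B N : Type*} [TopologicalSpace M] [ChartedSpace (V k) M]
  [TopologicalSpace B] [ChartedSpace (V b) B] [TopologicalSpace N] [ChartedSpace (V n) N]

/-- `F` is, in the coordinates `Θ : M × B → N`, the product `f × g`: `F(Θ(x, y)) = Θ(f(x), g(y))`. -/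
def IsProd (Θ : PDiff k b n M B N) (f : M → M) (g : B → B) (F : N → N) : Prop :=
  ∀ x y, F (Θ.pt x y) = Θ.pt (f x) (g y)

/-- `Ω(F) = Θ(K × B)`, where `K` is the closure of the set of the periodic points of `f`. -/
def OmegaIs (Θ : PDiff k b n M B N) (f : M → M) (F : N → N) : Prop :=
  ∀ x y, Θ.pt x y ∈ Omega F ↔ x ∈ closure (Per f)

end

/-- The closure of the set of the periodic points of `f` is a hyperbolic set. -/
def PerHyp {k : ℕ} {M : Type*} [TopologicalSpace M] [ChartedSpace (V k) M] [IsManifold (𝓡 k) ∞ M]
    {r : ℕ∞} (f : DiffM k M r) : Prop := IsHyperbolic f (closure (Per f))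

/-- There are a periodic orbit of `g` and two different orbits homoclinic to it. -/
def HasLoops {B : Type*} [MetricSpace B] (g : B → B) : Prop :=
  ∃ (π : ℕ) (z : ℤ → B) (ζ : Fin 2 → ℤ → B), Loops g π z ζ

/-- There are a periodic orbit of `g` and two different orbits homoclinic to it, such that closed
pseudo-orbits in the union of the three orbits are shadowed by periodic orbits. -/
def HasShadowedLoops {B : Type*} [MetricSpace B] (g : B → B) : Prop :=
  ∃ (π : ℕ) (z : ℤ → B) (ζ : Fin 2 → ℤ → B), Loops g π z ζ ∧ ShadowOn g (loopSet z ζ)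

end Run7.h619.PR
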