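import Pool.Agent.Run7.h619.PR.Defs

/-!
# Transitive Anosov diffeomorphisms: shadowing, expansivity, homoclinic loops

Second part of the project of helper619 (MP_4a0782_an, hard). Every `def S_XXX : Prop` is a piece. Goal: the
main theorem (products `f × g`) for all transitive Anosov diffeomorphisms `g`, without further
hypotheses. The starting files `Pool/Agent/H721R2` contain shadowing and expansivity for Anosov data
(`HypSys.shadowing`, `CSys.expansive`, used in `PerPt.lean`; `EAnosov` in `Embed.lean`, `exists_hypSys`,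
`exists_good_N` in `Build.lean`).

Your file: `Pool/Agent/Run7/h<you>/PR/X.lean`, theorem `Run7.h<you>.PR.t_X : S_X`; land it yourself.
-/

set_option autoImplicit false

open scoped Manifold ContDiff Topology
open Filter Set Metric

universe w

namespace Run7.h619.PR

open Pool.Agent.H718R2.G Pool.Agent.TH80.OMS Run7.h619.AA

/-- expansivity -/
def Expans {B : Type*} [MetricSpace B] (g : B → B) : Prop :=
  ∃ α : ℝ, 0 < α ∧ ∀ x y : ℤ → B, (∀ i, g (x i) = x (i + 1)) → (∀ i, g (y i) = y (i + 1)) →
    (∀ i, dist (x i) (y i) ≤ α) → x 0 = y 0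

/-- shadowing of two-sided pseudo-orbits -/
def ShadowZ {B : Type*} [MetricSpace B] (g : B → B) : Prop :=
  ∀ η : ℝ, 0 < η → ∃ δ : ℝ, 0 < δ ∧ ∀ w : ℤ → B, (∀ i, dist (g (w i)) (w (i + 1)) < δ) →
    ∃ y : ℤ → B, (∀ i, g (y i) = y (i + 1)) ∧ ∀ i, dist (y i) (w i) < η

/-- HS (200 lines). Anosov diffeomorphisms: some iterate is expansive and has the shadowing property, in the
metric of a smooth embedding `e`.

Proof: `e` from `exists_embedding_euclidean_of_compact` (its derivative is injective; see
`exists_norm` in `Pool/Agent/Run7/h619/AX/Tan.lean`), metric `‖e x - e y‖` on `B`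
(`MetricSpace.induced` + `replaceTopology`, or see how the library does it), `EAnosov` from
`IsHyperbolic g univ` (`Contr` for `g` on `Es`, for `g.symm` on `Eu`; the norm `q` is comparable with
`‖D e v‖`; the bounds `Ls, Lu` from `global_bound`; `mapS`... from `IsSplitting`), `EAnosov.angle`, `N` with
`K * (C * a ^ N) ≤ 1 / 16`, `exists_hypSys`, then `HypSys.shadowing` and (as in `PerPt.lean`)
`exists_csys`, `CSys.expansive`, `orbit_nat`, `orbit_neg`. -/
def S_HS : Prop :=
  ∀ (b : ℕ) (B : Type w) [MetricSpace B] [CompactSpace B] [ChartedSpace (V b) B]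
    [IsManifold (𝓡 b) ∞ B] (r : ℕ∞), 1 ≤ r → ∀ g : DiffM b B r, IsHyperbolic g univ →
    ∃ (N m : ℕ) (e : B → V m), 1 ≤ N ∧ Continuous e ∧ Function.Injective e ∧
      (∃ α : ℝ, 0 < α ∧ ∀ x y : ℤ → B, (∀ i, g^[N] (x i) = x (i + 1)) →
        (∀ i, g^[N] (y i) = y (i + 1)) → (∀ i, ‖e (x i) - e (y i)‖ ≤ α) → x 0 = y 0) ∧
      ∀ η : ℝ, 0 < η → ∃ δ : ℝ, 0 < δ ∧ ∀ w : ℤ → B,
        (∀ i, ‖e (g^[N] (w i)) - e (w (i + 1))‖ < δ) →
        ∃ y : ℤ → B, (∀ i, g^[N] (y i) = y (i + 1)) ∧ ∀ i, ‖e (y i) - e (w i)‖ < η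

/-- MET (120 lines). From an iterate and another metric to the map and the given metric.

Proof: `e` is continuous and injective on the compact `B`, so `dist` and `‖e x - e y‖` are uniformly
equivalent (`CompactSpace.uniformContinuous_of_continuous`, and compactness of
`{(x, y) | ε ≤ dist x y}`). Expansivity: `i ↦ x (N * i)` is an orbit of `g^[N]`. Shadowing:
`w (N * i)` is a pseudo-orbit of `g^[N]` (uniform continuity of `g`), `y (N * i + j) = g^[j] (y' i)` for
`0 ≤ j < N`, `y'` the shadowing orbit of `g^[N]`. -/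
def S_MET : Prop :=
  ∀ (B : Type w) [MetricSpace B] [CompactSpace B] (g : B → B), Continuous g →
    (∃ (N m : ℕ) (e : B → V m), 1 ≤ N ∧ Continuous e ∧ Function.Injective e ∧
      (∃ α : ℝ, 0 < α ∧ ∀ x y : ℤ → B, (∀ i, g^[N] (x i) = x (i + 1)) →
        (∀ i, g^[N] (y i) = y (i + 1)) → (∀ i, ‖e (x i) - e (y i)‖ ≤ α) → x 0 = y 0) ∧
      ∀ η : ℝ, 0 < η → ∃ δ : ℝ, 0 < δ ∧ ∀ w : ℤ → B,
        (∀ i, ‖e (g^[N] (w i)) - e (w (i + 1))‖ < δ) →
        ∃ y : ℤ → B, (∀ i, g^[N] (y i) = y (i + 1)) ∧ ∀ i, ‖e (y i) - e (w i)‖ < η) →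
    Expans g ∧ ShadowZ g

/-- PSH (80 lines). Shadowing of closed pseudo-orbits by periodic orbits.

Proof: the periodic two-sided pseudo-orbit `i ↦ w (i % m)` is shadowed by `y`, `η' ≤ α / 2`; `i ↦ y (i + m)`
also shadows it, so `y m = y 0` by expansivity. -/
def S_PSH : Prop :=
  ∀ (B : Type w) [MetricSpace B] (g : B → B), Expans g → ShadowZ g → ShadowPer g

/-- ASY (60 lines). Orbits which stay close are asymptotic.

Proof: by compactness; if `dist (x (i k)) (y (i k)) ≥ ε` with `i k → ∞`, a limit of the shifted orbits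
`j ↦ (x (i k + j), y (i k + j))` (compactness of `ℤ → B`, Tychonoff, or a diagonal subsequence) are two orbits
with distance `≤ α` at all times which are different at time `0`. -/
def S_ASY : Prop :=
  ∀ (B : Type w) [MetricSpace B] [CompactSpace B] (g : B → B), Continuous g → Expans g →
    ∃ α : ℝ, 0 < α ∧ ∀ x y : ℤ → B, (∀ i, g (x i) = x (i + 1)) → (∀ i, g (y i) = y (i + 1)) →
      ((∀ i, 0 ≤ i → dist (x i) (y i) ≤ α) → Tendsto (fun i : ℤ => dist (x i) (y i)) atTop (𝓝 0)) ∧
      ((∀ i, i ≤ 0 → dist (x i) (y i) ≤ α) → Tendsto (fun i : ℤ => dist (x i) (y i)) atBot (𝓝 0))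

/-- LOOP (200 lines). Existence of loops. Prove `S_ASY → S_LOOP`.

Proof. There is a periodic point (closed chains, PSH; or the hypothesis `ShadowPer g`), `z` its orbit, with
period `π`. For every point `y` which is not in the orbit `z` and every small `η` there is an orbit `ζ`
with `dist (ζ i) (z i) → 0` for `i → ± ∞` and `dist (ζ a) y < η` for some `a`: the pseudo-orbit is `z i`
for `i < 0`, then `π` times a `δ`-chain from `z 0` to `y` and back to `z 0` (of length `m`), then `z i` for
`i ≥ π m`; it is shadowed, and ASY (shift the times by `π m`) gives the limits. If `η` is smaller than the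
distance of `y` from the finite orbit `z`, the orbit `ζ` is not `z` and not periodic. The first loop:
any `y` (`B` is infinite). The second: `y` = a periodic point not in the orbit `z` (there is one: the periodic
points are dense, `B` is infinite), and `η` smaller than the distance of `y` from the orbits `ζ 0` and `z`
(positive, since `ζ 0` accumulates only at `z` and is not periodic). -/
def S_LOOP : Prop :=
  ∀ (B : Type w) [MetricSpace B] [CompactSpace B] [Infinite B] (g : B → B), Continuous g →
    Function.Injective g → Expans g → ShadowZ g → ShadowPer g → TransChain g →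
    ∃ (π : ℕ) (z : ℤ → B) (ζ : Fin 2 → ℤ → B), Loops g π z ζ

end Run7.h619.PR
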