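import Pool.Agent.Run7.h619.PR.All
import Pool.Agent.Run7.h619.PR.DefsP
import Pool.Agent.Run7.h619.PR.Iface2
import Pool.Agent.Run7.h382.PR.HS
import Pool.Agent.Run7.h973.PR.PSH
import Pool.Agent.Run7.h376.PR.LOOP

/-!
# Transitive Anosov diffeomorphisms: shadowing and loops
-/

set_option autoImplicit false

open scoped Manifold ContDiff Topology
open Filter Set Metric

universe u v w

namespace Run7.h619.PR

open Pool.Agent.H718R2.G Pool.Agent.TH80.OMS Run7.h619.AA

section

variable {b : ℕ} {B : Type w} [MetricSpace B] [CompactSpace B] [ChartedSpace (V b) B]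
  [IsManifold (𝓡 b) ∞ B] {r : ℕ∞} {g : DiffM b B r}

theorem anosov_props (hr : 1 ≤ r) (hg : Anosov g) : Expans g ∧ ShadowZ g :=
  Run7.h973.PR.t_MET B g g.continuous (Run7.h382.PR.t_HS b B r hr g hg)

theorem anosov_shadow (hr : 1 ≤ r) (hg : Anosov g) : ShadowPer g :=
  Run7.h973.PR.t_PSH B g (anosov_props hr hg).1 (anosov_props hr hg).2

theorem anosov_loops [Infinite B] (hr : 1 ≤ r) (hg : Anosov g) (hT : TransChain g) : HasLoops g :=
  Run7.h376.PR.t_LOOP Run7.h973.PR.t_ASY B g g.continuous g.injective (anosov_props hr hg).1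
    (anosov_props hr hg).2 (anosov_shadow hr hg) hT

end

section

variable {k b n : ℕ} {M : Type v} {B : Type w} {N : Type u} [TopologicalSpace M] [T2Space M]
  [CompactSpace M] [ChartedSpace (V k) M] [IsManifold (𝓡 k) ∞ M] [MetricSpace B] [CompactSpace B]
  [ChartedSpace (V b) B] [IsManifold (𝓡 b) ∞ B] [TopologicalSpace N] [T2Space N] [CompactSpace N]
  [ChartedSpace (V n) N] [IsManifold (𝓡 n) ∞ N] {r : ℕ∞} {Θ : PDiff k b n M B N} {f : DiffM k M r}
  {g : DiffM b B r} {F : DiffM n N r}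

/-- **Main theorem.** -/
theorem axA_prod_anosov [Infinite B] (hr : 1 ≤ r) (H : ∀ x y, F (Θ.pt x y) = Θ.pt (f x) (g y))
    (hg : Anosov g) (hT : TransChain g) (hF : OmegaStable n N r F) :
    AxA F ∧ IsHyperbolic f (closure (Per f)) ∧
      Omega F = {p | ∃ x ∈ closure (Per f), ∃ y, p = Θ.pt x y} :=
  axA_prod t_UP hr H hg (anosov_shadow hr hg) hT (anosov_loops hr hg hT) hF

end

end Run7.h619.PR
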