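import Pool.Agent.Run7.h619.PR.DefsC
import Pool.Agent.Run7.h619.AA.NoCyc
import Pool.Agent.Y504.CO.Cnt

/-!
# `Ω`-stable diffeomorphisms have no cycles of periodic orbits with wandering connecting points
-/

set_option autoImplicit false
set_option linter.unusedSectionVars false

open Filter Set Metric
open scoped Manifold ContDiff Topology

universe u

namespace Run7.h619.PR

open Pool.Agent.H718R2.G Pool.Agent.TH80.OMS Run7.h619.AA Run7.h619.AU Pool.Agent.Y929.CO

/-- convergence to a closed invariant set -/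
theorem ws_to {N : Type u} [TopologicalSpace N] {f : N → N} {P : Set N} (hP : IsClosed P)
    (hinv : ∀ z ∈ P, f z ∈ P) {y : N} (hy : y ∈ Ws f P) {O : Set N} (hO : IsOpen O) (hPO : P ⊆ O) :
    ∀ᶠ m : ℕ in atTop, f^[m] y ∈ O := by
  obtain ⟨x, hx, h⟩ := hy
  have h1 := h {q | q.1 ∉ P ∨ q.2 ∈ O} (by
    apply IsOpen.union
    · exact hP.isOpen_compl.preimage continuous_fst
    · exact hO.preimage continuous_snd) (by
    intro z
    by_cases h2 : z ∈ P
    · exact Or.inr (hPO h2)
    · exact Or.inl h2)
  filter_upwards [h1] with m hm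
  have hpm : f^[m] x ∈ P := by
    clear hm
    induction m with
    | zero => exact hx
    | succ m ih => rw [Function.iterate_succ_apply']; exact hinv _ ih
  rcases hm with h2 | h2
  · exact absurd hpm h2
  · exact h2

theorem perOrb_finite {N : Type u} {f : N → N} {p : N} (hp : p ∈ Per f) : (perOrb f p).Finite := by
  obtain ⟨m, hm, hmp⟩ := hp
  refine ((Finset.range m).finite_toSet.image fun i => f^[i] p).subset ?_
  rintro _ ⟨i, rfl⟩
  refine ⟨i % m, by simpa using Nat.mod_lt i hm, ?_⟩
  have h1 : f^[m * (i / m)] p = p := by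
    rw [Function.iterate_mul]
    exact Function.iterate_fixed hmp _
  show f^[i % m] p = f^[i] p
  conv_rhs => rw [← Nat.mod_add_div i m, Function.iterate_add_apply, h1]

theorem no_per_cycles {n : ℕ} {N : Type u} [TopologicalSpace N] [T2Space N] [CompactSpace N]
    [ChartedSpace (V n) N] [IsManifold (𝓡 n) ∞ N] {r : ℕ∞} (hr : 1 ≤ r) {F : DiffM n N r}
    (hF : OmegaStable n N r F) : NoPerCycles (fwd F) (bwd F) := by
  intro k p c hper hdis hc hk
  by_contra hcon
  push Not at hcon
  have hc' : ∀ i ≤ k, c i ∈ Ws (bwd F) (perOrb F (p i)) ∩ Ws (fwd F) (perOrb F (p (nx k i))) := by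
    intro i hi
    unfold nx
    split_ifs with h1
    · exact hc i h1
    · have : i = k := by omega
      rw [this]
      exact hk
  have hcl : ∀ i ≤ k, IsClosed (perOrb F (p i)) := fun i hi =>
    (perOrb_finite (hper i hi)).isClosed
  have hinv : ∀ i, ∀ z ∈ perOrb F (p i), F z ∈ perOrb F (p i) := by
    rintro i _ ⟨m, rfl⟩
    exact ⟨m + 1, Function.iterate_succ_apply' F m (p i)⟩
  have hinv' : ∀ i ≤ k, ∀ z ∈ perOrb F (p i), F.symm z ∈ perOrb F (p i) := by
    rintro i hi _ ⟨m, rfl⟩
    obtain ⟨a, ha, hap⟩ := hper i hi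
    have hap' : F^[a] (p i) = p i := hap
    refine ⟨m + (a - 1), ?_⟩
    apply F.injective
    have h1 : F (F.symm (F^[m] (p i))) = F^[m] (p i) := F.apply_symm_apply _
    show F (F^[m + (a - 1)] (p i)) = F (F.symm (F^[m] (p i)))
    rw [h1, ← Function.iterate_succ_apply' F, show (m + (a - 1)).succ = m + a by omega,
      Function.iterate_add_apply, hap']
  have hperO : ∀ z ∈ Per F, z ∈ Omega F := by
    rintro z ⟨m, hm, hmz⟩ W hW hzW
    exact ⟨m, hm, z, hzW, by rw [hmz]; exact hzW⟩
  have hclO : closure (Per F) ⊆ Omega F := by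
    apply closure_minimal hperO
    exact Pool.Agent.Y504.CO.Cnt.omega_closed F
  have D : Dat F k p (fun i => fullOrb F (c i)) := by
    refine ⟨hper, hdis, fun i _ j => fullOrb_step F (c i) j, ?_, ?_, ?_⟩
    · intro i hi O hO hPO
      have h1 := ws_to (hcl i hi) (hinv' i hi) (hc' i hi).1 hO hPO
      rw [eventually_atTop] at h1
      obtain ⟨a, ha⟩ := h1
      rw [eventually_atBot]
      refine ⟨-(a : ℤ) - 1, fun j hj => ?_⟩
      show fullOrb F (c i) j ∈ O
      unfold fullOrb
      rw [if_neg (by omega)]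
      exact ha _ (by omega)
    · intro i hi O hO hPO
      have h1 := ws_to (hcl _ nx_le) (hinv _) (hc' i hi).2 hO hPO
      rw [eventually_atTop] at h1
      obtain ⟨a, ha⟩ := h1
      rw [eventually_atTop]
      refine ⟨(a : ℤ), fun j hj => ?_⟩
      show fullOrb F (c i) j ∈ O
      unfold fullOrb
      rw [if_pos (by omega)]
      exact ha _ (by omega)
    · intro i hi hmem
      apply hcon i hi
      have h0 : fullOrb F (c i) 0 = c i := by
        unfold fullOrb
        rw [if_pos le_rfl]
        rfl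
      rw [h0] at hmem
      obtain ⟨m, hm⟩ := hmem
      obtain ⟨a, ha, hap⟩ := hper i hi
      apply hperO
      refine ⟨a, ha, ?_⟩
      rw [← hm]
      show F^[a] (F^[m] (p i)) = F^[m] (p i)
      rw [← Function.iterate_add_apply, add_comm, Function.iterate_add_apply]
      congr 1
  obtain ⟨i, hi, h1⟩ := stable_cyc hr hF D
  have h0 : fullOrb F (c i) 0 = c i := by
    unfold fullOrb
    rw [if_pos le_rfl]
    rfl
  rw [h0] at h1
  exact hcon i hi (hclO h1)

end Run7.h619.PR
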