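import Pool.Agent.Run7.h619.PR.Fin
import Pool.Agent.Run7.h19.PR.AFF
import Pool.Agent.Run7.h781.PR.JET
import Pool.Agent.Run7.h903.PR.BASE
import Pool.Agent.Run7.h903.PR.PERT
import Pool.Agent.Run7.h903.PR.NH
import Pool.Agent.Run7.h803.PR.SIGN
import Pool.Agent.Run7.h803.PR.TRU
import Pool.Agent.Run7.h803.PR.COMB
import Pool.Agent.Run7.h56.PR.CH
import Pool.Agent.Run7.h499.PR.UP
import Pool.Agent.Run7.h232.PR.TRI

/-!
# Products `f × g`: everything together
-/

set_option autoImplicit false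

open scoped Manifold ContDiff Topology
open Filter Set Metric

universe u v w

namespace Run7.h619.PR

theorem t_CH : S_CH.{u, v, w} :=
  Run7.h56.PR.t_CH (Run7.h781.PR.t_JET Run7.h19.PR.t_AFF) Run7.h903.PR.t_PERT Run7.h903.PR.t_BASE
    Run7.h903.PR.t_NH Run7.h803.PR.t_TRU

theorem t_UP : S_UP.{u, v, w} :=
  Run7.h499.PR.t_UP t_CH Pool.Agent.Run7.h232.PR.t_QR Run7.h803.PR.t_COMB Run7.h803.PR.t_SIGN
    Pool.Agent.Run7.h232.PR.t_TRI

end Run7.h619.PR
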