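import Pool.Agent.Run7.h619.AA.Conv

/-!
# Compactness of the balls in the tangent bundle
-/

set_option autoImplicit false
set_option linter.unusedSectionVars false

open Filter Set Metric Bundle
open scoped Manifold ContDiff Topology

namespace Run7.h619.PR

open Pool.Agent.H718R2.G Pool.Agent.TH80.OMS Run7.h619.AX Run7.h619.LA

variable {k : ℕ} {M : Type*} [TopologicalSpace M] [ChartedSpace (V k) M] [IsManifold (𝓡 k) ∞ M]
  [T2Space M] [CompactSpace M]

theorem q_smul {q : TangentBundle (𝓡 k) M → ℝ} (hq : IsTanNorm k M q) (x : M) (c : ℝ) (v : V k) :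
    q ⟨x, (c • v : V k)⟩ = |c| * q ⟨x, v⟩ := hq.smul x c v

theorem q_add {q : TangentBundle (𝓡 k) M → ℝ} (hq : IsTanNorm k M q) (x : M) (v w : V k) :
    q ⟨x, (v + w : V k)⟩ ≤ q ⟨x, v⟩ + q ⟨x, w⟩ := hq.add_le x v w

theorem q_zero {q : TangentBundle (𝓡 k) M → ℝ} (hq : IsTanNorm k M q) (x : M) :
    q ⟨x, (0 : V k)⟩ = 0 := by
  have h1 := q_smul hq x 0 (0 : V k)
  rwa [abs_zero, zero_mul, smul_zero] at h1

theorem q_nonneg {q : TangentBundle (𝓡 k) M → ℝ} (hq : IsTanNorm k M q) (x : M) (v : V k) :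
    0 ≤ q ⟨x, v⟩ := by
  by_cases h : v = 0
  · rw [h, q_zero hq]
  · exact (hq.pos x v h).le

theorem cpt_loc {q : TangentBundle (𝓡 k) M → ℝ} (hq : IsTanNorm k M q) (R : ℝ) (x₀ : M) :
    ∃ W ∈ 𝓝 x₀, IsCompact {z : TangentBundle (𝓡 k) M | z.1 ∈ W ∧ q z ≤ R} := by
  set e := trivializationAt (V k) (TangentSpace (𝓡 k) : M → Type _) x₀ with he
  have hx₀ : x₀ ∈ e.baseSet := mem_baseSet_trivializationAt _ _ _
  obtain ⟨W, hW, hWc, hWb⟩ : ∃ W ∈ 𝓝 x₀, IsCompact W ∧ W ⊆ e.baseSet := by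
    obtain ⟨W, hW1, hW2, hW3⟩ := local_compact_nhds (e.open_baseSet.mem_nhds hx₀)
    exact ⟨W, hW1, hW3, hW2⟩
  refine ⟨W, hW, ?_⟩
  obtain ⟨g, hg⟩ : ∃ g : M × V k → TangentBundle (𝓡 k) M,
      g = fun p => ⟨p.1, (e.symmL ℝ p.1 p.2 : V k)⟩ := ⟨_, rfl⟩
  have hgc : ContinuousOn g (W ×ˢ univ) := by
    have h1 : ContinuousOn e.toOpenPartialHomeomorph.symm (e.baseSet ×ˢ (univ : Set (V k))) := by
      rw [← e.target_eq]
      exact e.toOpenPartialHomeomorph.continuousOn_symm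
    refine (h1.mono (prod_mono hWb Subset.rfl)).congr ?_
    rintro ⟨y, v⟩ ⟨hy, -⟩
    rw [hg]
    show (⟨y, e.symmL ℝ y v⟩ : TangentBundle (𝓡 k) M) = e.toOpenPartialHomeomorph.symm (y, v)
    rw [e.symmL_apply (hWb hy)]
    exact e.mk_symm (hWb hy) v
  have hinv : ∀ z : TangentBundle (𝓡 k) M, z.1 ∈ W → g (z.1, e.linearMapAt ℝ z.1 z.2) = z := by
    intro z hz
    rw [hg]
    have h2 : e.symmL ℝ z.1 (e.linearMapAt ℝ z.1 z.2) = z.2 :=
      e.symmL_continuousLinearMapAt (R := ℝ) (hWb hz) z.2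
    show (⟨z.1, e.symmL ℝ z.1 (e.linearMapAt ℝ z.1 z.2)⟩ : TangentBundle (𝓡 k) M) = z
    rw [h2]
  have hne : ∀ y ∈ W, ∀ v : V k, v ≠ 0 → (e.symmL ℝ y v : V k) ≠ 0 := by
    intro y hy v hv h0
    apply hv
    have h2 : e.continuousLinearMapAt ℝ y (e.symmL ℝ y v) = v :=
      e.continuousLinearMapAt_symmL (R := ℝ) (hWb hy) v
    rw [← h2]
    have h3 : e.symmL ℝ y v = 0 := h0
    rw [h3, map_zero]
  -- lower bound
  obtain ⟨c, hc, hcb⟩ : ∃ c : ℝ, 0 < c ∧ ∀ y ∈ W, ∀ v : V k, c * ‖v‖ ≤ q (g (y, v)) := by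
    rcases subsingleton_or_nontrivial (V k) with hs | hs
    · refine ⟨1, one_pos, fun y hy v => ?_⟩
      rw [Subsingleton.elim v 0, norm_zero, mul_zero, hg]
      exact q_nonneg hq _ _
    · have hcomp : IsCompact (W ×ˢ sphere (0 : V k) 1) := hWc.prod (isCompact_sphere _ _)
      have hne' : (W ×ˢ sphere (0 : V k) 1).Nonempty :=
        ⟨(x₀, _), mem_of_mem_nhds hW, (NormedSpace.sphere_nonempty.2 zero_le_one).some_mem⟩
      have hcont : ContinuousOn (fun p => q (g p)) (W ×ˢ sphere (0 : V k) 1) :=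
        hq.cont.comp_continuousOn (hgc.mono (prod_mono Subset.rfl (subset_univ _)))
      obtain ⟨⟨y₁, v₁⟩, ⟨hy₁, hv₁⟩, hmin⟩ := hcomp.exists_isMinOn hne' hcont
      refine ⟨q (g (y₁, v₁)), ?_, fun y hy v => ?_⟩
      · rw [hg]
        apply hq.pos
        apply hne _ hy₁
        intro h0
        rw [h0, mem_sphere, dist_self] at hv₁
        exact zero_ne_one hv₁
      · by_cases hv : v = 0
        · rw [hv, norm_zero, mul_zero, hg]
          exact q_nonneg hq _ _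
        · have hvn : 0 < ‖v‖ := norm_pos_iff.2 hv
          have hu : ‖v‖⁻¹ • v ∈ sphere (0 : V k) 1 := by
            rw [mem_sphere, dist_zero_right, norm_smul, norm_inv, norm_norm,
              inv_mul_cancel₀ hvn.ne']
          have h1 : q (g (y₁, v₁)) ≤ q (g (y, ‖v‖⁻¹ • v)) := hmin (mk_mem_prod hy hu)
          have h2 : q (g (y, v)) = ‖v‖ * q (g (y, ‖v‖⁻¹ • v)) := by
            have e1 : (e.symmL ℝ y v : V k) = ‖v‖ • (e.symmL ℝ y (‖v‖⁻¹ • v) : V k) := by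
              have : e.symmL ℝ y (‖v‖ • (‖v‖⁻¹ • v)) = ‖v‖ • e.symmL ℝ y (‖v‖⁻¹ • v) :=
                map_smul _ _ _
              rw [smul_smul, mul_inv_cancel₀ hvn.ne', one_smul] at this
              exact this
            rw [hg]
            show q ⟨y, (e.symmL ℝ y v : V k)⟩ = _
            rw [e1]
            refine (q_smul hq y ‖v‖ _).trans ?_
            rw [abs_of_pos hvn]
          rw [h2, mul_comm]
          exact mul_le_mul_of_nonneg_left h1 hvn.le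
  have hset : {z : TangentBundle (𝓡 k) M | z.1 ∈ W ∧ q z ≤ R} =
      g '' ((W ×ˢ closedBall (0 : V k) (R / c)) ∩ ((fun p => q (g p)) ⁻¹' Iic R)) := by
    ext z
    constructor
    · rintro ⟨hz1, hz2⟩
      have h1 := hinv z hz1
      refine ⟨_, ⟨⟨hz1, ?_⟩, ?_⟩, h1⟩
      · rw [mem_closedBall, dist_zero_right, le_div_iff₀ hc, mul_comm]
        exact (hcb _ hz1 _).trans (by rw [h1]; exact hz2)
      · show q (g _) ≤ R
        rw [h1]
        exact hz2
    · rintro ⟨⟨y, v⟩, ⟨⟨hy, -⟩, hR⟩, rfl⟩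
      refine ⟨?_, hR⟩
      rw [hg]
      exact hy
  rw [hset]
  have hcomp : IsCompact (W ×ˢ closedBall (0 : V k) (R / c)) := hWc.prod (isCompact_closedBall _ _)
  have hcont : ContinuousOn (fun p => q (g p)) (W ×ˢ closedBall (0 : V k) (R / c)) :=
    hq.cont.comp_continuousOn (hgc.mono (prod_mono Subset.rfl (subset_univ _)))
  have h3 := hcont.preimage_isClosed_of_isClosed hcomp.isClosed isClosed_Iic (t := Iic R)
  exact (hcomp.of_isClosed_subset h3 inter_subset_left).image_of_continuousOn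
    (hgc.mono (inter_subset_left.trans (prod_mono Subset.rfl (subset_univ _))))

/-- the balls in the tangent bundle are compact -/
theorem cpt_ball {q : TangentBundle (𝓡 k) M → ℝ} (hq : IsTanNorm k M q) (R : ℝ) :
    IsCompact {z : TangentBundle (𝓡 k) M | q z ≤ R} := by
  choose W hW hWc using cpt_loc hq R
  obtain ⟨t, -, ht⟩ := isCompact_univ.elim_nhds_subcover W (fun x _ => hW x)
  have h1 : {z : TangentBundle (𝓡 k) M | q z ≤ R} =
      ⋃ x ∈ t, {z : TangentBundle (𝓡 k) M | z.1 ∈ W x ∧ q z ≤ R} := by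
    ext z
    simp only [mem_setOf_eq, mem_iUnion, exists_prop]
    constructor
    · intro hz
      have h2 := ht (mem_univ z.1)
      simp only [mem_iUnion, exists_prop] at h2
      obtain ⟨x, hx, hxz⟩ := h2
      exact ⟨x, hx, hxz, hz⟩
    · rintro ⟨x, -, -, hz⟩
      exact hz
  rw [h1]
  exact t.isCompact_biUnion fun x _ => hWc x

/-- bound for the derivative -/
theorem step_bound {q : TangentBundle (𝓡 k) M → ℝ} (hq : IsTanNorm k M q) {f : M → M}
    (hf : ContMDiff (𝓡 k) (𝓡 k) 1 f) :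
    ∃ L : ℝ, 1 ≤ L ∧ ∀ (x : M) (v : V k), q ⟨f x, Dv k k f x v⟩ ≤ L * q ⟨x, v⟩ := by
  have hc : Continuous fun z : TangentBundle (𝓡 k) M => q (tangentMap (𝓡 k) (𝓡 k) f z) :=
    hq.cont.comp (hf.continuous_tangentMap (by simp))
  obtain ⟨L, hL⟩ := (cpt_ball hq 1).bddAbove_image hc.continuousOn
  refine ⟨max 1 L, le_max_left _ _, fun x v => ?_⟩
  by_cases hv : v = 0
  · rw [hv, map_zero, q_zero hq, q_zero hq, mul_zero]
  · have h1 : 0 < q ⟨x, v⟩ := hq.pos x v hv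
    have h2 : q ⟨x, ((q ⟨x, v⟩)⁻¹ • v : V k)⟩ ≤ 1 := by
      rw [q_smul hq, abs_of_pos (inv_pos.2 h1), inv_mul_cancel₀ h1.ne']
    have h3 : q ⟨f x, Dv k k f x ((q ⟨x, v⟩)⁻¹ • v)⟩ ≤ L := hL ⟨_, h2, rfl⟩
    rw [map_smul, q_smul hq, abs_of_pos (inv_pos.2 h1), inv_mul_le_iff₀ h1] at h3
    calc _ ≤ q ⟨x, v⟩ * L := h3
      _ = L * q ⟨x, v⟩ := mul_comm _ _
      _ ≤ _ := mul_le_mul_of_nonneg_right (le_max_right _ _) h1.le

end Run7.h619.PR
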