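import Pool.Agent.Run7.h619.AA.Defs

/-!
# Products `f × g`: definitions for the project
-/

set_option autoImplicit false

open scoped Manifold ContDiff Topology
open Filter Set

namespace Run7.h619.PR

open Pool.Agent.H718R2.G Pool.Agent.TH80.OMS Run7.h619.AA

/-- A smooth family of diffeomorphisms `τ a` of `M`, `a ∈ ℝ^j`, with inverses `τ' a`, and `τ 0 = id`. -/
structure MFam (j k : ℕ) (M : Type*) [TopologicalSpace M] [ChartedSpace (V k) M]
    (τ τ' : V j → M → M) : Prop where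
  smooth : ContMDiff ((𝓡 j).prod (𝓡 k)) (𝓡 k) ∞ (fun q : V j × M => τ q.1 q.2)
  smooth' : ContMDiff ((𝓡 j).prod (𝓡 k)) (𝓡 k) ∞ (fun q : V j × M => τ' q.1 q.2)
  inv : ∀ a x, τ' a (τ a x) = x
  inv' : ∀ a x, τ a (τ' a x) = x
  zero : ∀ x, τ 0 x = x

/-- a linear isometry -/
def Iso {k : ℕ} (E : V k →L[ℝ] V k) : Prop := ∀ v, ‖E v‖ = ‖v‖

/-- Loops at a periodic orbit: `z` is an orbit with period `π`, `ζ 0`, `ζ 1` are two different orbits
homoclinic to it. -/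
structure Loops {B : Type*} [MetricSpace B] (g : B → B) (π : ℕ) (z : ℤ → B) (ζ : Fin 2 → ℤ → B) :
    Prop where
  pos : 1 ≤ π
  orb_z : ∀ i, g (z i) = z (i + 1)
  per : ∀ i, z (i + π) = z i
  orb : ∀ l i, g (ζ l i) = ζ l (i + 1)
  top : ∀ l, Tendsto (fun i : ℤ => dist (ζ l i) (z i)) atTop (𝓝 0)
  bot : ∀ l, Tendsto (fun i : ℤ => dist (ζ l i) (z i)) atBot (𝓝 0)
  ne_z : ∀ l i, ζ l 0 ≠ z i
  ne_self : ∀ l i, i ≠ 0 → ζ l 0 ≠ ζ l i
  ne_other : ∀ l l' i, l ≠ l' → ζ l 0 ≠ ζ l' i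

/-- periodic shadowing property for pseudo-orbits in the set `H` -/
def ShadowOn {B : Type*} [MetricSpace B] (g : B → B) (H : Set B) : Prop :=
  ∀ η : ℝ, 0 < η → ∃ δ : ℝ, 0 < δ ∧ ∀ (m : ℕ) (w : ℕ → B), 1 ≤ m → w m = w 0 → (∀ i, w i ∈ H) →
    (∀ i < m, dist (g (w i)) (w (i + 1)) < δ) →
    ∃ p : B, g^[m] p = p ∧ ∀ i < m, dist (g^[i] p) (w i) < η

/-- the union of the three orbits -/
def loopSet {B : Type*} (z : ℤ → B) (ζ : Fin 2 → ℤ → B) : Set B :=
  Set.range z ∪ ⋃ l, Set.range (ζ l)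

/-- `G` is a skew product over `g` in the coordinates `Θ`, with fibre maps `x ↦ f (Φ y x)`. -/
def IsSk {k b n : ℕ} {M B N : Type*} [TopologicalSpace M] [ChartedSpace (V k) M]
    [TopologicalSpace B] [ChartedSpace (V b) B] [TopologicalSpace N] [ChartedSpace (V n) N] {r : ℕ∞}
    (Θ : PDiff k b n M B N) (f : M → M) (g : B → B) (Φ : B → M → M) (G : DiffM n N r) : Prop :=
  ∀ x y, G (Θ.pt x y) = Θ.pt (f (Φ y x)) (g y)

/-- upper triangular maps -/
def UT {k : ℕ} (R : V k →L[ℝ] V k) : Prop :=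
  ∀ i j : Fin k, j < i → R (EuclideanSpace.single j 1) i = 0

/-- diagonal entries -/
noncomputable def dg {k : ℕ} (R : V k →L[ℝ] V k) (i : Fin k) : ℝ := R (EuclideanSpace.single i 1) i

/-- An orbit of `f` with frames `E t`: in the coordinates `θ` of the tangent spaces the derivative maps
the frame `E t` to the frame `E (t + 1)`, up to the upper triangular matrix `R t`. -/
structure Chain {k : ℕ} {M : Type*} [TopologicalSpace M] [ChartedSpace (V k) M] (f : M → M)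
    (θ : M → (V k ≃L[ℝ] V k)) (x : ℕ → M) (E R : ℕ → (V k →L[ℝ] V k)) : Prop where
  orb : ∀ t, f (x t) = x (t + 1)
  iso : ∀ t, Iso (E t)
  ut : ∀ t, UT (R t)
  pos : ∀ t i, 0 < dg (R t) i
  map : ∀ t v, θ (x (t + 1)) (dv k f (x t) ((θ (x t)).symm (E t v))) = E (t + 1) (R t v)

/-- the growth of the `i`-th diagonal entries up to the time `t` -/
noncomputable def gr {k : ℕ} (R : ℕ → (V k →L[ℝ] V k)) (i : Fin k) (t : ℕ) : ℝ :=
  ∑ u ∈ Finset.range t, Real.log (dg (R u) i)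

end Run7.h619.PR
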