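import Pool.Agent.Run7.h619.AU.Defs

/-!
# Cycles of periodic orbits: definitions
-/

set_option autoImplicit false

namespace Run7.h619.PR

open Pool.Agent.TH80.OMS Run7.h619.AU

/-- the orbit of the periodic point `p` -/
def perOrb {N : Type*} (f : N → N) (p : N) : Set N := Set.range fun m : ℕ => f^[m] p

/-- `f` has no cycles of periodic orbits with wandering connecting points: if `p 0, ..., p k`, `k ≥ 0`, are
periodic points in different orbits `O 0, ..., O k`, `c i ∈ W^u(O i) ∩ W^s(O (i + 1))` for `i < k` and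
`c k ∈ W^u(O k) ∩ W^s(O 0)`, then some `c i` is a nonwandering point. Here `f'` is the inverse of `f`. -/
def NoPerCycles {N : Type*} [TopologicalSpace N] (f f' : N → N) : Prop :=
  ∀ (k : ℕ) (p c : ℕ → N), (∀ i ≤ k, p i ∈ Per f) →
    (∀ i ≤ k, ∀ j ≤ k, i ≠ j → Disjoint (perOrb f (p i)) (perOrb f (p j))) →
    (∀ i < k, c i ∈ Ws f' (perOrb f (p i)) ∩ Ws f (perOrb f (p (i + 1)))) →
    c k ∈ Ws f' (perOrb f (p k)) ∩ Ws f (perOrb f (p 0)) → ∃ i ≤ k, c i ∈ Omega f

end Run7.h619.PR
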