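import Pool.Agent.Run7.h619.PR.HYP
import Pool.Agent.Run7.h619.AA.Main
import Pool.Agent.Run7.h958.PR.PROD

/-!
# Axiom A for `Ω`-stable products `f × g`: the last step
-/

set_option autoImplicit false
set_option linter.unusedSectionVars false

open scoped Manifold ContDiff Topology
open Filter Set Metric

universe u v w

namespace Run7.h619.PR

open Pool.Agent.H718R2.G Pool.Agent.TH80.OMS Run7.h619.AA Run7.h619.SK Pool.Agent.Y504.CO
open Run7.h619.AX (exists_norm)

section

variable {k b n : ℕ} {M : Type v} {B : Type w} {N : Type u} [TopologicalSpace M] [T2Space M]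
  [CompactSpace M] [ChartedSpace (V k) M] [IsManifold (𝓡 k) ∞ M] [MetricSpace B] [CompactSpace B]
  [ChartedSpace (V b) B] [IsManifold (𝓡 b) ∞ B] [TopologicalSpace N] [T2Space N] [CompactSpace N]
  [ChartedSpace (V n) N] [IsManifold (𝓡 n) ∞ N] {r : ℕ∞} {Θ : PDiff k b n M B N} {f : DiffM k M r}
  {g : DiffM b B r} {F : DiffM n N r}

/-- periodic points of the product are over periodic points of `f` -/
theorem per_prod (H : ∀ x y, F (Θ.pt x y) = Θ.pt (f x) (g y)) (m : ℕ) (x : M) (y : B) :
    F^[m] (Θ.pt x y) = Θ.pt (f^[m] x) (g^[m] y) := by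
  induction m with
  | zero => rfl
  | succ m ih =>
    rw [Function.iterate_succ_apply', ih, H, Function.iterate_succ_apply',
      Function.iterate_succ_apply']

theorem trivAct (d n : ℕ) (N : Type*) [TopologicalSpace N] [ChartedSpace (V n) N] (r : ℕ∞) :
    IsAct d n N r (fun _ z => z) where
  smooth := contMDiff_snd
  zero _ := rfl
  add _ _ _ := rfl

/-- the nonwandering set of the product -/
theorem omega_prod [Infinite B] (hr : 1 ≤ r) (H : ∀ x y, F (Θ.pt x y) = Θ.pt (f x) (g y))
    (hs : ShadowPer g) (hT : TransChain g) (hF : OmegaStable n N r F) :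
    Omega F = closure (Per F) ∧ ∀ x y y', Θ.pt x y ∈ Omega F → Θ.pt x y' ∈ Omega F := by
  have := exists_metric k M
  let _ : MetricSpace M := TopologicalSpace.metrizableSpaceMetric M
  have hsk : IsSkew (d := 0) F Θ (fun _ z => z) (fun _ x => x) f g.toHomeomorph (fun _ => 0) :=
    { act := trivAct 0 n N r
      emb := Θ.toHomeomorph.isEmbedding
      restr := fun _ _ _ => rfl
      contf := f.continuous
      contc := continuous_const
      comm := fun _ _ => rfl
      map := fun p => by
        obtain ⟨x, y⟩ := p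
        exact H x y }
  have hcon := skew_concl hr hF hsk (trivAct 0 n N ⊤) hs hT
  exact hcon.omega Θ.surjective

/-- from the estimates (UP) to Axiom A -/
theorem axA_prod [Infinite B] (UP : S_UP.{u, v, w}) (hr : 1 ≤ r)
    (H : ∀ x y, F (Θ.pt x y) = Θ.pt (f x) (g y)) (hg : Anosov g) (hs : ShadowPer g)
    (hT : TransChain g) (hl : ∃ (π : ℕ) (z : ℤ → B) (ζ : Fin 2 → ℤ → B), Loops g π z ζ)
    (hF : OmegaStable n N r F) :
    AxA F ∧ IsHyperbolic f (closure (Per f)) ∧
      Omega F = {p | ∃ x ∈ closure (Per f), ∃ y, p = Θ.pt x y} := by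
  obtain ⟨π, z, ζ, hl⟩ := hl
  obtain ⟨U, hU, hFU, -, hhyp⟩ := stable_hyp Pool.Agent.Y504.CO.Plug.hF2 hr hF
  have hD : Data Θ f g F U π z ζ := ⟨H, hU, hFU, hhyp, hl, fun η hη => by
    obtain ⟨δ, hδ, h⟩ := hs η hη
    exact ⟨δ, hδ, fun m w h1 h2 _ h3 => h m w h1 h2 h3⟩⟩
  obtain ⟨q₁, hq₁⟩ := exists_norm (k := k) (M := M)
  have hq : IsNormOn (fun (x : M) (v : V k) => q₁ ⟨x, v⟩) := normOn_iff.2 hq₁
  have hH : IsHyperbolic f (closure (Per f)) :=
    t_HYP k M r hr f _ hq (UP k b n M B N r hr Θ f g F U π z ζ hD _ hq 2)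
  have hOm := omega_prod hr H hs hT hF
  have hper : ∀ p ∈ Per F, (Θ.symm p).1 ∈ Per f := by
    rintro p ⟨m, hm, hp⟩
    refine ⟨m, hm, ?_⟩
    obtain ⟨⟨x, y⟩, rfl⟩ := Θ.surjective p
    have h1 := per_prod H m x y
    have h2 : F^[m] (Θ.pt x y) = Θ.pt x y := hp
    rw [h2] at h1
    have h3 := Θ.injective h1
    have h4 : Θ.symm (Θ.toEquiv (x, y)) = (x, y) := Θ.symm_apply_apply (x, y)
    rw [h4]
    exact (congrArg Prod.fst h3).symm
  have hsub : ∀ p ∈ Omega F, (Θ.symm p).1 ∈ closure (Per f) := by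
    rw [hOm.1]
    intro p hp
    have hc : Continuous fun p : N => (Θ.symm p).1 :=
      continuous_fst.comp Θ.toHomeomorph.symm.continuous
    exact map_mem_closure (f := fun p : N => (Θ.symm p).1) hc hp hper
  have hJ : F '' Omega F = Omega F := by
    rw [hOm.1]
    have h1 := F.toHomeomorph.image_closure (Per F)
    have h2 : F.toHomeomorph '' Per F = Per F := by
      apply Subset.antisymm
      · rintro _ ⟨p, ⟨m, hm, hp⟩, rfl⟩
        refine ⟨m, hm, ?_⟩
        show F^[m] (F p) = F p
        rw [← Function.iterate_succ_apply, Function.iterate_succ_apply', hp]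
      · rintro p ⟨m, hm, hp⟩
        obtain ⟨m, rfl⟩ : ∃ m', m = m' + 1 := ⟨m - 1, by omega⟩
        refine ⟨F^[m] p, ⟨m + 1, hm, ?_⟩, ?_⟩
        · rw [← Function.iterate_add_apply, add_comm, Function.iterate_add_apply, hp]
        · show F (F^[m] p) = p
          rw [← Function.iterate_succ_apply' F m p, hp]
    rw [h2] at h1
    exact h1
  have hA : IsHyperbolic F (Omega F) := by
    refine Run7.h958.PR.t_PROD k b n M B N r hr Θ f g F H (closure (Per f)) univ (Omega F) hH hg
      (by rw [hOm.1]; exact isClosed_closure) hJ ?_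
    intro p hp
    exact ⟨_, hsub p hp, (Θ.symm p).2, trivial, (Θ.apply_symm_apply p).symm⟩
  refine ⟨⟨hA, hOm.1.subset⟩, hH, ?_⟩
  apply Subset.antisymm
  · intro p hp
    exact ⟨_, hsub p hp, (Θ.symm p).2, (Θ.apply_symm_apply p).symm⟩
  · rintro p ⟨x, hx, y, rfl⟩
    have hc : Continuous fun x : M => Θ.pt x y := Θ.continuous.comp (by fun_prop)
    have hcl : IsClosed (Omega F) := by rw [hOm.1]; exact isClosed_closure
    have h1 : ∀ x ∈ Per f, Θ.pt x y ∈ Omega F := by
      rintro x ⟨m, hm, hx⟩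
      have hs' : Pool.Agent.W564.SC.PerShadow g.toHomeomorph := hs
      have hT' : ChainTrans g.toHomeomorph := hT
      obtain ⟨y0, b', hb, hy0, -⟩ := dense_per hs' hT' y 1 one_pos
      have hy0' : g^[b'] y0 = y0 := hy0
      have h2 : Θ.pt x y0 ∈ Per F := by
        refine ⟨m * b', Nat.mul_pos hm hb, ?_⟩
        rw [per_prod H, Function.iterate_mul, Function.iterate_fixed hx, mul_comm,
          Function.iterate_mul]
        congr 1
        exact Function.iterate_fixed hy0' _
      have h3 : Θ.pt x y0 ∈ Omega F := by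
        rw [hOm.1]
        exact subset_closure h2
      exact hOm.2 x y0 y h3
    have h2 : closure (Per f) ⊆ (fun x : M => Θ.pt x y) ⁻¹' (Omega F) :=
      closure_minimal h1 (hcl.preimage hc)
    exact h2 hx

end

end Run7.h619.PR
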