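import Pool.Agent.Run7.h619.PR.Defs
import Pool.Agent.Y504.CO.Stm2
import Pool.Agent.TH80.OMS.Push

/-!
# Every `Ω`-stable product `f × g`, `g` Anosov with loops, `f` ARBITRARY, satisfies Axiom A

Project of helper619 (MP_4a0782_an, hard). Every `def S_XXX : Prop` is a piece.

Idea of the whole proof. Let `F = f × g` be `Ω`-stable, so all periodic points of all `G` near `F` are
hyperbolic. Over a base orbit of `g` which passes once near the homoclinic point `ζ 0 0` (or `ζ 1 0`) and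
stays near the periodic orbit `z` at other times, we may change `f` at this single time, by any small
diffeomorphism of `M`. So every orbit segment of `f` which nearly closes up (with its frame, that is, in the
bundle of complete flags) is an orbit segment of some `G` near `F` which closes up exactly, and the
derivative is upper triangular in the frame. Its diagonal entries are never `1`; the scaling of the jump is
free, so they have absolute logarithm `> ε`. The same for concatenations (loops repeated many times, because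
the same jump may be used many times). By pigeonhole and greedy arguments each diagonal entry is uniformly
contracting or uniformly expanding along periodic orbits of `f`, with constants which do not depend on the
orbit. So the closure of the periodic points of `f` is hyperbolic.

Claim a piece: `update h619_pieces set seat=current_seat(), state='taken', at=now() where piece='X' and
seat is null returning piece`. Your file: `Pool/Agent/Run7/h<you>/PR/X.lean`, theorem
`Run7.h<you>.PR.t_X : S_X` (namespace free), land it yourself and set state='done'.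
-/

set_option autoImplicit false

open scoped Manifold ContDiff Topology
open Filter Set Metric

universe u v w

namespace Run7.h619.PR

open Pool.Agent.H718R2.G Pool.Agent.TH80.OMS Run7.h619.AA Pool.Agent.Y504.CO

/-- AFF (120-200 lines). Families of diffeomorphisms of `ℝ^k` supported in the ball of radius `1/2`
(`LFam`, in `Pool/Agent/TH80/OMS/Push.lean`) which contain all small affine maps on the ball of radius
`1/4`.

Proof: as `dil_family` in the same file. `j = finrank (V k × (V k →L V k))`, a linear isomorphism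
`e : V j ≃L V k × (V k →L V k)`; `β` the cut off function there, `b_a(v) = β v • ((e a).1 + (e a).2 v)` is
linear in `a`, smooth, with compact support in `v`; `F (a, v) = v + b_{η(a)}(v)`, where
`η(a) = φ(‖a‖^2) a` is a smooth cut off in the parameter (`η a = a` for small `a`, and `‖η a‖` small for all
`a`), so that `v ↦ b_{η(a)}(v)` has Lipschitz constant `≤ 1/2`, and `F (a, ·)` is a diffeomorphism (inverse
function theorem for `(a, v) ↦ (a, F (a, v))`, as in `dil_family`; look there for the lemmas). -/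
def S_AFF : Prop :=
  ∀ k : ℕ, ∃ (j : ℕ) (F F' : V j × V k → V k) (κ C : ℝ), 0 < κ ∧ 0 < C ∧ LFam j k F F' ∧
    ∀ (b : V k) (L : V k →L[ℝ] V k), ‖b‖ < κ → ‖L‖ < κ → ∃ a : V j, ‖a‖ ≤ C * (‖b‖ + ‖L‖) ∧
      ∀ v, ‖v‖ < 1 / 4 → F (a, v) = v + (b + L v)

/-- JET (250 lines). Coordinates `θ x` of the tangent spaces `T_x M = V k` (not continuous in `x`, but
comparable with every continuous norm), finitely many families `τ c`, and finite colourings of the frames
such that frames with the same colour are joined by small members of the families, with a free scaling.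
Prove `S_AFF → S_JET`.

Proof: good charts `χ_c` (`GoodChart`, `small_chart` in `TH80/OMS/Push.lean`, or `Pool.Agent.W699.SC.gc`)
such that the sets `{x | ‖χ_c x‖ < 1/8}`, `c : Fin C`, cover `M`; `c(x)` a choice of the index;
`θ x = mfderiv (χ_{c(x)}) x`; `τ c a = tr (χ c) F a` (`tr_diff` in `Y504/CO/P2.lean` gives `MFam`).
Comparison with `q`: the function `(u, v) ↦ q (χ_c.symm u) (D χ_c.symm u v)` is continuous and positive
on the compact set `closedBall 0 (1/8) × sphere 0 1`. Colours of `(x, E)`: `c(x)`, the cell of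
`χ_c x` in a finite partition of the ball of radius `1/8` in cells of diameter `< ρ`, and the cell of
`E` in a finite partition of the compact set of linear maps of norm `≤ 1` in cells of diameter `< ρ` (if `E`
has norm `> 1`: any colour). For equal colours put `u = χ_c x`, `u' = χ_c x'`,
`1 + L = exp(t) E' E⁻¹` (`E` is an isometry, so invertible), `‖L‖ ≤ (exp ε - 1) + exp ε ρ`, and
`b = u' - u - L u`; then `τ c a x = χ_c.symm (u + b + L u) = x'` with derivative `1 + L` in the chart, with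
`‖a‖ ≤ C₀ (‖b‖ + ‖L‖) < δ`, if `ρ, ε` are small. -/
def S_JET : Prop :=
  ∀ (k : ℕ) (M : Type v) [TopologicalSpace M] [T2Space M] [CompactSpace M] [ChartedSpace (V k) M]
    [IsManifold (𝓡 k) ∞ M], ∃ (θ : M → (V k ≃L[ℝ] V k)) (C j : ℕ) (τ τ' : Fin C → V j → M → M),
    (∀ c, MFam j k M (τ c) (τ' c)) ∧
    (∀ q : M → V k → ℝ, IsNormOn q → ∃ K : ℝ, 0 < K ∧ ∀ x v,
      q x v ≤ K * ‖θ x v‖ ∧ ‖θ x v‖ ≤ K * q x v) ∧
    ∀ δ : ℝ, 0 < δ → ∃ (Q : ℕ) (ε : ℝ) (col : M → (V k →L[ℝ] V k) → Fin Q), 0 < ε ∧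
      ∀ (x x' : M) (E E' : V k →L[ℝ] V k), Iso E → Iso E' → col x E = col x' E' → ∃ c : Fin C,
        ∀ t : ℝ, |t| ≤ ε → ∃ a : V j, ‖a‖ < δ ∧ τ c a x = x' ∧
          ∀ v, θ x' (dv k (τ c a) x ((θ x).symm (E v))) = Real.exp t • E' v

/-- PERT (200 lines). Perturbations of `F = f × g` in the fibres over small sets of the base.

Proof: smooth bump functions `β l : B → ℝ` with values in `[0, 1]`, equal to `1` on a neighbourhood `W l` of
`p l`, with support in `O l` (`exists_contMDiff_...` / `SmoothBumpFunction`); `Φ_a y = τ 0 (β 0 y • a 0) ∘ τ 1 (β 1 y • a 1)` (at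
most one factor is not the identity), `G_a (Θ (x, y)) = Θ (f (Φ_a y x), g y)`. This is a family `IsFam`
(parameter space `P = V j × V j`), so `Pool.Agent.TH80.CLX.fam_mem` gives `δ`. (If `N` is empty everything
is trivial.) Similar code: `Pool/Agent/Run7/h619` (families of skew products), `Y504/CO/P2.lean`. -/
def S_PERT : Prop :=
  ∀ (k b n : ℕ) (M : Type v) (B : Type w) (N : Type u) [TopologicalSpace M] [T2Space M]
    [CompactSpace M] [ChartedSpace (V k) M] [IsManifold (𝓡 k) ∞ M] [MetricSpace B] [CompactSpace B]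
    [ChartedSpace (V b) B] [IsManifold (𝓡 b) ∞ B] [TopologicalSpace N] [T2Space N] [CompactSpace N]
    [ChartedSpace (V n) N] [IsManifold (𝓡 n) ∞ N] (r : ℕ∞), 1 ≤ r → ∀ (Θ : PDiff k b n M B N)
    (f : DiffM k M r) (g : DiffM b B r) (F : DiffM n N r),
    (∀ x y, F (Θ.pt x y) = Θ.pt (f x) (g y)) → ∀ U : Set (DiffM n N r),
    IsOpen[strongTop n N r] U → F ∈ U → ∀ (p : Fin 2 → B) (O : Fin 2 → Set B), (∀ l, IsOpen (O l)) →
    (∀ l, p l ∈ O l) → Disjoint (O 0) (O 1) → ∃ W : Fin 2 → Set B, (∀ l, W l ∈ 𝓝 (p l)) ∧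
    ∀ (j : ℕ) (τ τ' : Fin 2 → V j → M → M), (∀ l, MFam j k M (τ l) (τ' l)) → ∃ δ : ℝ, 0 < δ ∧
    ∀ a : Fin 2 → V j, (∀ l, ‖a l‖ < δ) → ∃ (G : DiffM n N r) (Φ : B → M → M), G ∈ U ∧
      IsSk Θ f g Φ G ∧ (∀ y, (∀ l, y ∉ O l) → ∀ x, Φ y x = x) ∧
      (∀ l, ∀ y ∈ W l, ∀ x, Φ y x = τ l (a l) x)

/-- BASE (200 lines). Periodic orbits of the base with a prescribed pattern.

Proof: the points `ζ l 0` have positive distance `d` from the other points of `loopSet z ζ` (the set
`range z` is finite, and only finitely many of the points `ζ l' i` are not near it); `O l` = ball around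
`ζ l 0` of radius `d / 2`. Given `W`: `η ≤ d / 2` such that the balls of radius `η` around `ζ l 0` are in
`W l`; `δ` from `ShadowOn` for `η`; `ℓ` such that
`dist (ζ l i) (z i) < δ / 2` for `|i| ≥ ℓ / 2 - 1` (roughly). The pseudo-orbit `w t`, for
`T i ≤ t < T (i + 1)`, is `ζ (ι i) (t - T i)` in the first half of the interval, and
`ζ (ι (i + 1)) (t - T (i + 1))` in the second half (with `ι K` replaced by `ι 0`). The phases fit since
`π ∣ T i` and `z` has period `π`. -/
def S_BASE : Prop :=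
  ∀ (B : Type w) [MetricSpace B] (g : B → B), Continuous g → ∀ (π : ℕ) (z : ℤ → B)
    (ζ : Fin 2 → ℤ → B), Loops g π z ζ → ShadowOn g (loopSet z ζ) →
    ∃ O : Fin 2 → Set B, (∀ l, IsOpen (O l)) ∧ (∀ l, ζ l 0 ∈ O l) ∧ Disjoint (O 0) (O 1) ∧
    ∀ W : Fin 2 → Set B, (∀ l, W l ∈ 𝓝 (ζ l 0)) → ∃ ℓ : ℕ, 1 ≤ ℓ ∧
    ∀ (K : ℕ) (T : ℕ → ℕ) (ι : ℕ → Fin 2), 1 ≤ K → T 0 = 0 → (∀ i < K, T i + ℓ ≤ T (i + 1)) →
      (∀ i ≤ K, π ∣ T i) → ∃ y : B, g^[T K] y = y ∧ (∀ i < K, g^[T i] y ∈ W (ι i)) ∧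
      ∀ t < T K, (∀ i < K, t ≠ T i) → ∀ l, g^[t] y ∉ O l

/-- NH (80 lines). A periodic point with the eigenvalue `1` in the fibre direction is not hyperbolic.

Proof: `HypAt` with `m = T`, `ψ` the chart at the point; `u = D (ψ ∘ Θ.pt · y) x₀ w ≠ 0` (`Θ` is a
diffeomorphism) is fixed by the derivative of `ψ ∘ G^[T] ∘ ψ.symm` (differentiate
`G^[T] (Θ.pt x y) = Θ.pt (H x) y` at `x₀`), so its orbit is a bounded nonzero orbit: `NoBdd` fails. -/
def S_NH : Prop :=
  ∀ (k b n : ℕ) (M : Type v) (B : Type w) (N : Type u) [TopologicalSpace M] [T2Space M]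
    [CompactSpace M] [ChartedSpace (V k) M] [IsManifold (𝓡 k) ∞ M] [MetricSpace B] [CompactSpace B]
    [ChartedSpace (V b) B] [IsManifold (𝓡 b) ∞ B] [TopologicalSpace N] [T2Space N] [CompactSpace N]
    [ChartedSpace (V n) N] [IsManifold (𝓡 n) ∞ N] (r : ℕ∞), 1 ≤ r → ∀ (Θ : PDiff k b n M B N)
    (G : DiffM n N r) (T : ℕ) (H : M → M) (x₀ : M) (y : B) (w : V k), 1 ≤ T →
    (∀ x, G^[T] (Θ.pt x y) = Θ.pt (H x) y) → MDifferentiableAt (𝓡 k) (𝓡 k) H x₀ → H x₀ = x₀ →
    w ≠ 0 → dv k H x₀ w = w → ¬ HypAt n G (Θ.pt x₀ y)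

/-- TRU (60 lines). Upper triangular maps: products, and the eigenvalue `1`.

Proof: in coordinates, `R v i = ∑ j, R (e_j) i * v j`. Fixed vector: the matrix of `R - 1` is upper
triangular with a zero on the diagonal, so its determinant is zero (`Matrix.det_of_upperTriangular`,
`Matrix.exists_mulVec_eq_zero_iff`). -/
def S_TRU : Prop :=
  ∀ (k : ℕ), (∀ R R' : V k →L[ℝ] V k, UT R → UT R' → UT (R' ∘L R) ∧
      ∀ i, dg (R' ∘L R) i = dg R' i * dg R i) ∧
    ∀ (R : V k →L[ℝ] V k) (i : Fin k), UT R → dg R i = 1 → ∃ w : V k, w ≠ 0 ∧ R w = w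

/-- QR (120 lines). Orthonormal frames along an orbit.

Proof: induction; `E 0 = 1`. Given the isometry `E t`, the vectors `A t (E t e_j)` form a basis; by
Gram-Schmidt (`gramSchmidtOrthonormalBasis`, or by hand) there is an orthonormal basis `(u_j)` such that
`A t (E t e_j) = ∑_{i ≤ j} R_ij u_i` with `R_jj > 0`; `E (t + 1) e_j = u_j`. -/
def S_QR : Prop :=
  ∀ (k : ℕ) (A : ℕ → (V k ≃L[ℝ] V k)), ∃ E R : ℕ → (V k →L[ℝ] V k), (∀ t, Iso (E t)) ∧
    (∀ t, UT (R t)) ∧ (∀ t i, 0 < dg (R t) i) ∧ ∀ t v, A t (E t v) = E (t + 1) (R t v)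

/-- COMB (120 lines). Finite combinatorics.

Proof. (1) `s i' - s i ≥ - C₀` for `i ≤ i'`, `C₀ = (Q + 1) (n₀ + 1) (λ + 1)`: greedy: `a = i`, `b` the last time in `[a, i']` with
colour `c a`; if `b - a ≥ n₀` then `s b - s a ≥ ε > 0`, otherwise `s b - s a ≥ - n₀ λ`; the interval
`[b + 1, i']` does not contain the colour `c a`. Induction on the number of colours in the interval.
(2) Among the times `i, i + n₀, i + 2 n₀, …` in `[i, i']` there are `m ≥ ((i' - i) / n₀) / Q` with the same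
colour; between the first and the last of them `s` increases at least by `(m - 1) ε`; apply (1) to the two
remaining intervals. -/
def S_COMB : Prop :=
  ∀ (Q n₀ : ℕ) (L ε : ℝ), 1 ≤ n₀ → 0 ≤ L → 0 < ε → ∃ κ C : ℝ, 0 < κ ∧ 0 ≤ C ∧ ∀ (I : ℕ) (s : ℕ → ℝ)
    (c : ℕ → Fin Q), (∀ i < I, |s (i + 1) - s i| ≤ L) →
    (∀ i i', i + n₀ ≤ i' → i' ≤ I → c i = c i' → ε ≤ s i' - s i) →
    ∀ i i', i ≤ i' → i' ≤ I → κ * ((i' : ℝ) - i) - C ≤ s i' - s i

/-- SIGN (40 lines). Real arithmetic.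

Proof: `m₀ = 1`, `m₁ → ∞` gives `|β| ≥ ε`. If the signs are opposite, take `m₀` large and
`m₁ = ⌊m₀ |σ| / |β|⌋`: then `|m₀ σ + m₁ β| ≤ |β| ≤ ε m₀`. -/
def S_SIGN : Prop :=
  ∀ ε σ β : ℝ, 0 < ε → (∀ m₀ m₁ : ℕ, 1 ≤ m₀ → ε * ((m₀ : ℝ) + m₁) < |m₀ * σ + m₁ * β|) →
    σ ≠ 0 ∧ (0 < σ → ε ≤ β) ∧ (σ < 0 → β ≤ -ε)

/-- TRI (200 lines). Triangular systems with uniformly contracting or expanding diagonal entries have no
vector orbits with a local maximum at a large scale.

Proof. Let `m = ‖c t₀‖` and suppose `‖c t‖ < ρ m` for `|t - t₀| ≤ N`. By downward induction on the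
coordinate `i`: for all `η > 0` and `h` there is `N` such that the bound on the window of radius `N` implies
`|c t i| ≤ η m` for `|t - t₀| ≤ h`. Indeed
`c (t + 1) i = dg (R t) i * c t i + ∑_{j > i} R (e_j) i * c t j`, where the sum is at most `k Λ η' m` on the
window of radius `h'`; if the diagonal entries contract, then
`|c t i| ≤ exp (C - κ (t - t')) ρ m + ∑_{t' ≤ u < t} exp (C - κ (t - u - 1)) k Λ η' m`,
`t' = t₀ - h'`, the second term is `≤ exp C k Λ η' m / (1 - exp (-κ))`; if they expand: the same backwards.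
Take first `η'`, then `h'`. Finally `η = 1 / (2 (k + 1))`, `h = 0` contradicts
`m = ‖c t₀‖ ≤ ∑ |c t₀ i| ≤ m / 2`. -/
def S_TRI : Prop :=
  ∀ (k : ℕ) (Λ κ C ρ : ℝ), 0 < κ → ∃ N : ℕ, ∀ (R : ℕ → (V k →L[ℝ] V k)) (s : Fin k → ℕ → ℝ)
    (t₁ t₂ t₀ : ℕ) (c : ℕ → V k), (∀ t, ‖R t‖ ≤ Λ) → (∀ t, UT (R t)) →
    (∀ t i, dg (R t) i = Real.exp (s i (t + 1) - s i t)) →
    (∀ i, (∀ a b, t₁ ≤ a → a ≤ b → b ≤ t₂ → κ * ((b : ℝ) - a) - C ≤ s i b - s i a) ∨
      (∀ a b, t₁ ≤ a → a ≤ b → b ≤ t₂ → s i b - s i a ≤ C - κ * ((b : ℝ) - a))) →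
    (∀ t, t₁ ≤ t → t < t₂ → c (t + 1) = R t (c t)) → t₁ + N ≤ t₀ → t₀ + N ≤ t₂ → c t₀ ≠ 0 →
    ∃ t, t₀ ≤ t + N ∧ t ≤ t₀ + N ∧ ρ * ‖c t₀‖ ≤ ‖c t‖

/-- The data: the product `F = f × g`, a neighbourhood `U` of `F` with hyperbolic periodic points, and loops in
the base. -/
structure Data {k b n : ℕ} {M : Type v} {B : Type w} {N : Type u} [TopologicalSpace M]
    [ChartedSpace (V k) M] [MetricSpace B] [ChartedSpace (V b) B] [TopologicalSpace N]
    [ChartedSpace (V n) N] {r : ℕ∞} (Θ : PDiff k b n M B N) (f : DiffM k M r) (g : DiffM b B r)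
    (F : DiffM n N r) (U : Set (DiffM n N r)) (π : ℕ) (z : ℤ → B) (ζ : Fin 2 → ℤ → B) : Prop where
  map : ∀ x y, F (Θ.pt x y) = Θ.pt (f x) (g y)
  isOpen : IsOpen[strongTop n N r] U
  mem : F ∈ U
  hyp : ∀ G ∈ U, ∀ p ∈ Per G, HypAt n G p
  loops : Loops g π z ζ
  shadow : ShadowOn g (loopSet z ζ)

/-- CH (300 lines, assembly). No resonances. Prove
`S_JET → S_PERT → S_BASE → S_NH → S_TRU → S_CH`.

Proof. `θ, C, j, τ` from JET, `O` from BASE, `W` from PERT for `p l = ζ l 0`, `δ` = minimum over the pairs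
`(c₀, c₁)` of the `δ` of PERT for the families `![τ c₀, τ c₁]`; `Q, ε, col` from JET for this `δ`, `ℓ` from BASE for `W`.
Suppose `|m₀ σ + m₁ β| ≤ ε (m₀ + m₁)`, `σ = gr R i t₂ - gr R i t₁`, `β = gr R i b - gr R i a`; put
`t = - (m₀ σ + m₁ β) / (m₀ + m₁)`. Jump `0` (closing): a small member of a family maps `x t₂` to `x t₁`, and in the
coordinates the frame `E t₂` to `exp t • E t₁`; jump `1` (loop): `x b` to `x a`, `E b` to `exp t • E a`. `G`
from PERT. The pattern (BASE): `m₁` jumps `1` with gaps `b - a`, then a gap `t₂ - a` (a gap `t₂ - t₁` if `m₁ = 0`), then `m₀` jumps `0`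
with gaps `t₂ - t₁`, then the gap `b - t₁` closing up (`K = m₀ + m₁`; if `m₁ = 0` all gaps are `t₂ - t₁`). All gaps are `≥ ℓ` and
divisible by `π`. Over this base orbit the fibre maps of `G` follow the orbit segments of `f` exactly:
starting with `x b` (`x t₂` if `m₁ = 0`). With the relation
`Tr H x E x' E' R : H x = x' ∧ MDifferentiableAt H x ∧ ∀ v, θ x' (dv k H x ((θ x).symm (E v))) = E' (R v)`
(it can be composed) the derivative over the period is, in the frame at the starting point, a product `R` of the upper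
triangular maps `R u` and of `exp t`, its diagonal entry number `i` is
`exp (m₀ σ + m₁ β + (m₀ + m₁) t) = 1`. TRU gives `R w = w`, `w ≠ 0`, NH contradicts `Data.hyp`. -/
def S_CH : Prop :=
  ∀ (k b n : ℕ) (M : Type v) (B : Type w) (N : Type u) [TopologicalSpace M] [T2Space M]
    [CompactSpace M] [ChartedSpace (V k) M] [IsManifold (𝓡 k) ∞ M] [MetricSpace B] [CompactSpace B]
    [ChartedSpace (V b) B] [IsManifold (𝓡 b) ∞ B] [TopologicalSpace N] [T2Space N] [CompactSpace N]
    [ChartedSpace (V n) N] [IsManifold (𝓡 n) ∞ N] (r : ℕ∞), 1 ≤ r → ∀ (Θ : PDiff k b n M B N)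
    (f : DiffM k M r) (g : DiffM b B r) (F : DiffM n N r) (U : Set (DiffM n N r)) (π : ℕ)
    (z : ℤ → B) (ζ : Fin 2 → ℤ → B), Data Θ f g F U π z ζ →
    ∃ (θ : M → (V k ≃L[ℝ] V k)) (Q ℓ : ℕ) (ε : ℝ) (col : M → (V k →L[ℝ] V k) → Fin Q), 0 < ε ∧
      1 ≤ ℓ ∧
      (∀ q : M → V k → ℝ, IsNormOn q → ∃ K : ℝ, 0 < K ∧ ∀ x v,
        q x v ≤ K * ‖θ x v‖ ∧ ‖θ x v‖ ≤ K * q x v) ∧
      ∀ (x : ℕ → M) (E R : ℕ → (V k →L[ℝ] V k)), Chain f θ x E R → ∀ (i : Fin k)
        (t₁ t₂ a b : ℕ), col (x t₂) (E t₂) = col (x t₁) (E t₁) → π ∣ t₂ - t₁ → t₁ ≤ a →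
        a + ℓ ≤ b → b ≤ t₂ → π ∣ a - t₁ → π ∣ b - t₁ → col (x b) (E b) = col (x a) (E a) →
        ∀ m₀ m₁ : ℕ, 1 ≤ m₀ → ε * ((m₀ : ℝ) + m₁) <
          |m₀ * (gr R i t₂ - gr R i t₁) + m₁ * (gr R i b - gr R i a)|

/-- UP (250 lines, assembly). Uniform hyperbolicity at the periodic points of `f`. Prove
`S_CH → S_QR → S_COMB → S_SIGN → S_TRI → S_UP`.

Proof. Let `A t = θ (x (t + 1)) ∘ D f (x t) ∘ (θ (x t)).symm`: norms of `A t` and of its inverse are `≤ Λ` (comparison of
`θ` with a continuous norm, which exists, and continuity of `D f` on the compact `M`; see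
`Pool/Agent/Run7/h619/AX` for such bounds). So `‖R t‖ ≤ Λ`, `|log (dg (R t) i)| ≤ log Λ` for chains. Constants: `κ, C`
from COMB for the times `t₁ + π i` (`n₀ = ℓ`, `L = π log Λ`), then for all times (change `C`); `N` from TRI with `ρ K ^ 2` in the place
of `ρ`. Given a periodic orbit `x` (period `p`) and the vector orbit `v` take the chain which starts with
`x 0` (QR), a colour which occurs at infinitely many times `m p π`, two such times `t₁ < t₂` with
`t₂ - t₁ ≥ 2 N + 2 p + ℓ`, and a multiple `t₀` of `p` with `t₁ + N ≤ t₀ ≤ t₂ - N`. CH (with all returns `a < b` in `[t₁, t₂]`) and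
SIGN: the increments `gr R i b - gr R i a` at all returns have the sign of `gr R i t₂ - gr R i t₁` and absolute
value `≥ ε`. COMB (for `± gr R i (t₁ + π ·)`), TRI for `c t = (E t)⁻¹ (θ (x t) (v (t - t₀)))`. -/
def S_UP : Prop :=
  ∀ (k b n : ℕ) (M : Type v) (B : Type w) (N : Type u) [TopologicalSpace M] [T2Space M]
    [CompactSpace M] [ChartedSpace (V k) M] [IsManifold (𝓡 k) ∞ M] [MetricSpace B] [CompactSpace B]
    [ChartedSpace (V b) B] [IsManifold (𝓡 b) ∞ B] [TopologicalSpace N] [T2Space N] [CompactSpace N]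
    [ChartedSpace (V n) N] [IsManifold (𝓡 n) ∞ N] (r : ℕ∞), 1 ≤ r → ∀ (Θ : PDiff k b n M B N)
    (f : DiffM k M r) (g : DiffM b B r) (F : DiffM n N r) (U : Set (DiffM n N r)) (π : ℕ)
    (z : ℤ → B) (ζ : Fin 2 → ℤ → B), Data Θ f g F U π z ζ → ∀ q : M → V k → ℝ, IsNormOn q →
    ∀ ρ : ℝ, ∃ N₀ : ℕ, ∀ (x : ℤ → M) (v : ℤ → V k) (p : ℕ), 1 ≤ p → (∀ i, x (i + p) = x i) →
      (∀ i, f (x i) = x (i + 1)) → (∀ i, v (i + 1) = dv k f (x i) (v i)) → v 0 ≠ 0 →
      ∃ i : ℤ, |i| ≤ N₀ ∧ ρ * q (x 0) (v 0) ≤ q (x i) (v i)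

/-- HYP (300 lines). From uniform estimates at the periodic points to a hyperbolic set.

Proof. Let `Λ = closure (Per f)`. By continuity (limits of periodic points and vectors) the property holds for all orbits in
`Λ`: for every orbit `x` in `Λ` and every vector orbit `v` there is `|i| ≤ N₀` with
`2 q (v 0) ≤ q (v i)`. `Es x`: vectors with bounded forward orbit; if `sup_{i ≥ 0} q (v i) = S < ∞` then
`q (v i) ≤ S / 2` for `i ≥ N₀`, and so on: `q (v i) ≤ 2 · 2 ^ (- i / N₀) S`, and `S` is attained for `i < N₀`, so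
`S ≤ C q (v 0)`. The same for `Eu` backwards. `Es ∩ Eu = 0` (a nonzero bounded orbit would have a maximum, after a limit, or: both
estimates). `Es`, `Eu` are closed, invariant. `Es x ⊕ Eu x = T_x`: for periodic points since the
derivative `A` of the period has no bounded nonzero orbits (linear algebra: see
`Pool/Agent/Run7/h619/AX/LA.lean`); for limits of periodic points by the uniform
estimates and compactness of the Grassmannian (choose orthonormal bases): the dimensions are constant along a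
subsequence, limits of `Es` are in `Es`. -/
def S_HYP : Prop :=
  ∀ (k : ℕ) (M : Type v) [TopologicalSpace M] [T2Space M] [CompactSpace M] [ChartedSpace (V k) M]
    [IsManifold (𝓡 k) ∞ M] (r : ℕ∞), 1 ≤ r → ∀ (f : DiffM k M r) (q : M → V k → ℝ),
    IsNormOn q → (∃ N₀ : ℕ, ∀ (x : ℤ → M) (v : ℤ → V k) (p : ℕ), 1 ≤ p → (∀ i, x (i + p) = x i) →
      (∀ i, f (x i) = x (i + 1)) → (∀ i, v (i + 1) = dv k f (x i) (v i)) → v 0 ≠ 0 →
      ∃ i : ℤ, |i| ≤ N₀ ∧ 2 * q (x 0) (v 0) ≤ q (x i) (v i)) → IsHyperbolic f (closure (Per f))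

/-- PROD (200 lines). Products of hyperbolic sets.

Proof: `E^s (Θ (x, y)) = D Θ (Es x × Es y)`; norm `q (D Θ (v, w)) = q₁ v + q₂ w`. See
`Pool/Agent/Run7/h619/AX/Prod.lean` and `AX/Tan.lean` for the case of a fixed point `x`. -/
def S_PROD : Prop :=
  ∀ (k b n : ℕ) (M : Type v) (B : Type w) (N : Type u) [TopologicalSpace M] [T2Space M]
    [CompactSpace M] [ChartedSpace (V k) M] [IsManifold (𝓡 k) ∞ M] [MetricSpace B] [CompactSpace B]
    [ChartedSpace (V b) B] [IsManifold (𝓡 b) ∞ B] [TopologicalSpace N] [T2Space N] [CompactSpace N]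
    [ChartedSpace (V n) N] [IsManifold (𝓡 n) ∞ N] (r : ℕ∞), 1 ≤ r → ∀ (Θ : PDiff k b n M B N)
    (f : DiffM k M r) (g : DiffM b B r) (F : DiffM n N r),
    (∀ x y, F (Θ.pt x y) = Θ.pt (f x) (g y)) → ∀ (K : Set M) (L : Set B) (J : Set N),
    IsHyperbolic f K → IsHyperbolic g L → IsClosed J → F '' J = J →
    (∀ p ∈ J, ∃ x ∈ K, ∃ y ∈ L, p = Θ.pt x y) → IsHyperbolic F J

end Run7.h619.PR
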