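import Pool.Agent.Run7.h619.PR.Hyp3
import Pool.Agent.Run7.h619.PR.Iface
import Pool.Agent.Run7.h619.AA.Conv

/-!
# From uniform estimates at the periodic points to a hyperbolic set
-/

set_option autoImplicit false
set_option linter.unusedSectionVars false

open Filter Set Metric Bundle
open scoped Manifold ContDiff Topology

universe v

namespace Run7.h619.PR

open Pool.Agent.H718R2.G Pool.Agent.TH80.OMS Run7.h619.AX Run7.h619.LA Run7.h619.AA

theorem t_HYP : S_HYP.{v} := by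
  intro k M _ _ _ _ _ r hr f q₀ hq₀ H
  obtain ⟨N₀, H⟩ := H
  have hr' : (1 : WithTop ℕ∞) ≤ (r : WithTop ℕ∞) := by exact_mod_cast hr
  have hf : ContMDiff (𝓡 k) (𝓡 k) 1 f := f.contMDiff.of_le hr'
  have hf' : ContMDiff (𝓡 k) (𝓡 k) 1 f.symm := f.symm.contMDiff.of_le hr'
  have hinv : ∀ x, f.symm (f x) = x := f.symm_apply_apply
  have hinv' : ∀ x, f (f.symm x) = x := f.apply_symm_apply
  obtain ⟨q, hqdef⟩ : ∃ q : TangentBundle (𝓡 k) M → ℝ, q = fun p => q₀ p.1 p.2 := ⟨_, rfl⟩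
  have hq : IsTanNorm k M q := by
    rw [hqdef]
    exact normOn_iff.1 hq₀
  have hP : ∀ x ∈ Per f, NoMax q f f.symm (N₀ + 1) x := by
    rintro x ⟨p, hp1, hp⟩
    refine noMax_per hq hf hf' hinv hinv' (N₀ := N₀) ?_ hp1 hp
    intro x v p h1 h2 h3 h4 h5
    rw [hqdef]
    exact H x v p h1 h2 h3 h4 h5
  have hK : ∀ x ∈ closure (Per f), NoMax q f f.symm (N₀ + 1) x := fun x hx =>
    noMax_closure hf hf' hq hP hx
  have hPf : ∀ x ∈ Per f, f x ∈ Per f := by
    rintro x ⟨p, hp1, hp⟩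
    refine ⟨p, hp1, ?_⟩
    rw [← Function.iterate_succ_apply, Function.iterate_succ_apply', hp]
  have hPf' : ∀ x ∈ Per f, f.symm x ∈ Per f := by
    rintro x ⟨p, hp1, hp⟩
    refine ⟨p, hp1, ?_⟩
    have hinj : Function.Injective f := Function.LeftInverse.injective hinv
    apply hinj
    have e : f (f^[p] (f.symm x)) = f^[p] (f (f.symm x)) := by
      rw [← Function.iterate_succ_apply, Function.iterate_succ_apply']
    rw [e, hinv', hp]
  have hKf : ∀ x ∈ closure (Per f), f x ∈ closure (Per f) := fun x hx =>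
    map_mem_closure f.continuous hx hPf
  have hKf' : ∀ x ∈ closure (Per f), f.symm x ∈ closure (Per f) := fun x hx =>
    map_mem_closure f.symm.continuous hx hPf'
  obtain ⟨C₁, μ₁, hC₁, hμ₁, hμ₁', h1⟩ := Bs_decay hq hf hf' hinv (N₀ + 1) (Nat.le_add_left _ _) hKf hK
  obtain ⟨C₂, μ₂, hC₂, hμ₂, hμ₂', h2⟩ := Bs_decay hq hf' hf hinv' (N₀ + 1) (Nat.le_add_left _ _) hKf'
    (fun x hx => (hK x hx).swap)
  obtain ⟨C, hCdef⟩ : ∃ C, C = max C₁ C₂ := ⟨_, rfl⟩
  obtain ⟨μ, hμdef⟩ : ∃ μ, μ = max μ₁ μ₂ := ⟨_, rfl⟩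
  have hC : 0 < C := by rw [hCdef]; exact lt_max_of_lt_left hC₁
  have hμ : 0 < μ := by rw [hμdef]; exact lt_max_of_lt_left hμ₁
  have hμ1 : μ < 1 := by rw [hμdef]; exact max_lt hμ₁' hμ₂'
  have hs : ∀ x ∈ closure (Per f), ∀ v ∈ Bs hq f x, ∀ m : ℕ,
      q ⟨f^[m] x, Dv k k (f^[m]) x v⟩ ≤ C * μ ^ m * q ⟨x, v⟩ := by
    intro x hx v hv m
    refine (h1 x hx v hv m).trans (mul_le_mul_of_nonneg_right ?_ (q_nonneg hq x v))
    have e1 : C₁ ≤ C := by rw [hCdef]; exact le_max_left _ _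
    have e2 : μ₁ ^ m ≤ μ ^ m := pow_le_pow_left₀ hμ₁.le (by rw [hμdef]; exact le_max_left _ _) m
    exact mul_le_mul e1 e2 (by positivity) hC.le
  have hu : ∀ x ∈ closure (Per f), ∀ v ∈ Bs hq f.symm x, ∀ m : ℕ,
      q ⟨f.symm^[m] x, Dv k k (f.symm^[m]) x v⟩ ≤ C * μ ^ m * q ⟨x, v⟩ := by
    intro x hx v hv m
    refine (h2 x hx v hv m).trans (mul_le_mul_of_nonneg_right ?_ (q_nonneg hq x v))
    have e1 : C₂ ≤ C := by rw [hCdef]; exact le_max_right _ _
    have e2 : μ₂ ^ m ≤ μ ^ m := pow_le_pow_left₀ hμ₂.le (by rw [hμdef]; exact le_max_right _ _) m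
    exact mul_le_mul e1 e2 (by positivity) hC.le
  obtain ⟨D, hD, hang⟩ := angle hq hf hf' hinv hKf hC hμ hμ1 hs hu
  have hdis : ∀ x ∈ closure (Per f), ∀ v, v ∈ Bs hq f x → v ∈ Bs hq f.symm x → v = 0 := by
    intro x hx v h3 h4
    have h5 := (hang x hx v h3 (-v) (Submodule.neg_mem _ h4)).1
    rw [add_neg_cancel, q_zero hq, mul_zero] at h5
    by_contra hne
    exact absurd (hq.pos x v hne) (not_lt.2 h5)
  have htop : ∀ x ∈ Per f, Bs hq f x ⊔ Bs hq f.symm x = ⊤ := by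
    rintro x ⟨p, hp1, hp⟩
    exact sup_per hq hf hf' hinv hinv' hp1 hp (hdis x (subset_closure ⟨p, hp1, hp⟩))
  have hcompl : ∀ x ∈ closure (Per f), IsCompl (Bs hq f x) (Bs hq f.symm x) := by
    intro x hx
    refine ⟨?_, ?_⟩
    · rw [Submodule.disjoint_def]
      exact hdis x hx
    · rw [codisjoint_iff]
      exact limit_split hq hf hf' hμ hμ1 hC (fun y hy => hs y (subset_closure hy))
        (fun y hy => hu y (subset_closure hy)) (fun y hy => hang y (subset_closure hy)) hD htop hx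
  rw [hyperbolic_iff hr]
  exact hyperbolic_of hr f isClosed_closure hKf hKf' hq hcompl
    (fun x _ v hv => Bs_map hq hf hv) (fun x _ v hv => Bs_map' hq hf' hf hinv hv)
    (fun x _ v hv => Bs_map' hq hf hf' hinv' hv) (fun x _ v hv => Bs_map hq hf' hv)
    hC hμ hμ1 hs hu

end Run7.h619.PR
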