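import Pool.Agent.Run7.h619.PR.All
import Pool.Agent.Run7.h619.PR.DefsP

/-!
# Products of diffeomorphisms with homoclinic loops
-/

set_option autoImplicit false

open scoped Manifold ContDiff Topology
open Filter Set Metric

universe u v w

namespace Run7.h619.PR

open Pool.Agent.H718R2.G Pool.Agent.TH80.OMS Run7.h619.AA Pool.Agent.Y504.CO Run7.h619.AU
open Run7.h619.AX (exists_norm)

section

variable {k b n : ℕ} {M : Type v} {B : Type w} {N : Type u} [TopologicalSpace M] [T2Space M]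
  [CompactSpace M] [ChartedSpace (V k) M] [IsManifold (𝓡 k) ∞ M] [MetricSpace B] [CompactSpace B]
  [ChartedSpace (V b) B] [IsManifold (𝓡 b) ∞ B] [TopologicalSpace N] [T2Space N] [CompactSpace N]
  [ChartedSpace (V n) N] [IsManifold (𝓡 n) ∞ N] {r : ℕ∞} {Θ : PDiff k b n M B N} {f : DiffM k M r}
  {g : DiffM b B r} {F : DiffM n N r}

/-- if `g` has loops, the periodic points of `f` are uniformly hyperbolic -/
theorem factor_hyp (hr : 1 ≤ r) (H : IsProd Θ (fwd f) (fwd g) (fwd F))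
    (hl : HasShadowedLoops (fwd g)) (hF : OmegaStable n N r F) : PerHyp f := by
  obtain ⟨π, z, ζ, hl, hs⟩ := hl
  obtain ⟨U, hU, hFU, -, hhyp⟩ := stable_hyp Pool.Agent.Y504.CO.Plug.hF2 hr hF
  have hD : Data Θ f g F U π z ζ := ⟨H, hU, hFU, hhyp, hl, hs⟩
  obtain ⟨q₁, hq₁⟩ := exists_norm (k := k) (M := M)
  have hq : IsNormOn (fun (x : M) (v : V k) => q₁ ⟨x, v⟩) := normOn_iff.2 hq₁
  exact t_HYP k M r hr f _ hq (t_UP k b n M B N r hr Θ f g F U π z ζ hD _ hq 2)

/-- products of the hyperbolic sets -/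
theorem prod_hyp (hr : 1 ≤ r) (H : IsProd Θ (fwd f) (fwd g) (fwd F)) (hf : PerHyp f)
    (hg : PerHyp g) : PerHyp F := by
  have H' : ∀ x y, F (Θ.pt x y) = Θ.pt (f x) (g y) := H
  have hper : ∀ p ∈ Per F, (Θ.symm p).1 ∈ Per f ∧ (Θ.symm p).2 ∈ Per g := by
    rintro p ⟨m, hm, hp⟩
    obtain ⟨⟨x, y⟩, rfl⟩ := Θ.surjective p
    have h1 := per_prod H' m x y
    have h2 : F^[m] (Θ.pt x y) = Θ.pt x y := hp
    rw [h2] at h1
    have h3 := Θ.injective h1
    have h4 : Θ.symm (Θ.toEquiv (x, y)) = (x, y) := Θ.symm_apply_apply (x, y)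
    rw [h4]
    exact ⟨⟨m, hm, (congrArg Prod.fst h3).symm⟩, ⟨m, hm, (congrArg Prod.snd h3).symm⟩⟩
  have hs : Continuous fun p : N => Θ.symm p := Θ.toHomeomorph.symm.continuous
  refine Run7.h958.PR.t_PROD k b n M B N r hr Θ f g F H (closure (Per f)) (closure (Per g))
    (closure (Per F)) hf hg isClosed_closure ?_ ?_
  · have h1 := F.toHomeomorph.image_closure (Per F)
    have h2 : F.toHomeomorph '' Per F = Per F := by
      apply Subset.antisymm
      · rintro _ ⟨p, ⟨m, hm, hp⟩, rfl⟩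
        refine ⟨m, hm, ?_⟩
        show F^[m] (F p) = F p
        rw [← Function.iterate_succ_apply, Function.iterate_succ_apply', hp]
      · rintro p ⟨m, hm, hp⟩
        obtain ⟨m, rfl⟩ : ∃ m', m = m' + 1 := ⟨m - 1, by omega⟩
        refine ⟨F^[m] p, ⟨m + 1, hm, ?_⟩, ?_⟩
        · rw [← Function.iterate_add_apply, add_comm, Function.iterate_add_apply, hp]
        · show F (F^[m] p) = p
          rw [← Function.iterate_succ_apply' F m p, hp]
    rw [h2] at h1
    exact h1
  · intro p hp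
    refine ⟨(Θ.symm p).1, ?_, (Θ.symm p).2, ?_, (Θ.apply_symm_apply p).symm⟩
    · exact map_mem_closure (f := fun p : N => (Θ.symm p).1) (continuous_fst.comp hs) hp
        fun p hp => (hper p hp).1
    · exact map_mem_closure (f := fun p : N => (Θ.symm p).2) (continuous_snd.comp hs) hp
        fun p hp => (hper p hp).2

end

section

variable {k b n : ℕ} {M : Type v} {B : Type w} {N : Type u} [MetricSpace M]
  [CompactSpace M] [ChartedSpace (V k) M] [IsManifold (𝓡 k) ∞ M] [MetricSpace B] [CompactSpace B]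
  [ChartedSpace (V b) B] [IsManifold (𝓡 b) ∞ B] [TopologicalSpace N] [T2Space N] [CompactSpace N]
  [ChartedSpace (V n) N] [IsManifold (𝓡 n) ∞ N] {r : ℕ∞} {Θ : PDiff k b n M B N} {f : DiffM k M r}
  {g : DiffM b B r} {F : DiffM n N r}

/-- both factors have loops -/
theorem both_hyp (hr : 1 ≤ r) (H : IsProd Θ (fwd f) (fwd g) (fwd F))
    (hf : HasShadowedLoops (fwd f)) (hg : HasShadowedLoops (fwd g)) (hF : OmegaStable n N r F) :
    PerHyp f ∧ PerHyp g ∧ PerHyp F := by
  have h1 : PerHyp f := factor_hyp hr H hg hF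
  have h2 : PerHyp g := by
    refine factor_hyp (Θ := (Diffeomorph.prodComm (𝓡 b) (𝓡 k) B M ∞).trans Θ) (f := g) (g := f) hr
      ?_ hf hF
    intro y x
    exact H x y
  exact ⟨h1, h2, prod_hyp hr H h1 h2⟩

end

end Run7.h619.PR
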