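import Pool.Agent.Run7.h619.PR.Cpt

/-!
# Uniform estimates for bounded orbits
-/

set_option autoImplicit false
set_option linter.unusedSectionVars false

open Filter Set Metric Bundle
open scoped Manifold ContDiff Topology

namespace Run7.h619.PR

open Pool.Agent.H718R2.G Pool.Agent.TH80.OMS Run7.h619.AX Run7.h619.LA

/-- decay of bounded sequences -/
theorem decay (N : ℕ) (hN : 1 ≤ N) (L : ℝ) (hL : 1 ≤ L) : ∃ C μ : ℝ, 0 < C ∧ 0 < μ ∧ μ < 1 ∧
    ∀ a : ℕ → ℝ, (∀ i, 0 ≤ a i) → (∃ B, ∀ i, a i ≤ B) → (∀ i, a (i + 1) ≤ L * a i) →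
    (∀ i, N ≤ i → ∃ j, i ≤ j + N ∧ 2 * a i ≤ a j) → ∀ m, a m ≤ C * μ ^ m * a 0 := by
  have hN' : (0 : ℝ) < N := by exact_mod_cast hN
  refine ⟨2 * L ^ N, (1 / 2 : ℝ) ^ ((1 : ℝ) / N), by positivity, by positivity,
    Real.rpow_lt_one (by norm_num) (by norm_num) (by positivity), ?_⟩
  intro a ha hB hL1 hmax m
  obtain ⟨B₀, hB₀⟩ := hB
  have hbdd : BddAbove (range a) := ⟨B₀, by rintro _ ⟨i, rfl⟩; exact hB₀ i⟩
  obtain ⟨B, hBdef⟩ : ∃ B, B = ⨆ i, a i := ⟨_, rfl⟩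
  have hle : ∀ i, a i ≤ B := fun i => by rw [hBdef]; exact le_ciSup hbdd i
  have hgrow : ∀ i, a i ≤ L ^ i * a 0 := by
    intro i
    induction i with
    | zero => simp
    | succ i ih =>
      calc a (i + 1) ≤ L * a i := hL1 i
        _ ≤ L * (L ^ i * a 0) := mul_le_mul_of_nonneg_left ih (by linarith)
        _ = L ^ (i + 1) * a 0 := by ring
  have hB2 : B ≤ max (L ^ N * a 0) (B / 2) := by
    rw [hBdef]
    refine ciSup_le fun i => ?_
    rw [← hBdef]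
    rcases lt_or_ge i N with h | h
    · refine le_trans (hgrow i) (le_trans ?_ (le_max_left _ _))
      exact mul_le_mul_of_nonneg_right (pow_le_pow_right₀ hL h.le) (ha 0)
    · obtain ⟨j, -, hj⟩ := hmax i h
      have := hle j
      exact le_trans (by linarith) (le_max_right _ _)
  have hB0 : 0 ≤ B := (ha 0).trans (hle 0)
  have hB3 : B ≤ L ^ N * a 0 := by
    rcases le_max_iff.1 hB2 with h | h
    · exact h
    · have : B ≤ 0 := by linarith
      have h2 : 0 ≤ L ^ N * a 0 := mul_nonneg (by positivity) (ha 0)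
      linarith
  have key : ∀ j i : ℕ, j * N ≤ i → a i ≤ (1 / 2) ^ j * B := by
    intro j
    induction j with
    | zero => intro i _; simpa using hle i
    | succ j ih =>
      intro i hi
      have h1 : N ≤ i := le_trans (by nlinarith) hi
      obtain ⟨l, hl, hl2⟩ := hmax i h1
      have h2 := ih l (by
        have : (j + 1) * N = j * N + N := by ring
        omega)
      rw [pow_succ]
      linarith
  have h1 := key (m / N) m (Nat.div_mul_le_self m N)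
  have h2 : (1 / 2 : ℝ) ^ (m / N) ≤ 2 * ((1 / 2 : ℝ) ^ ((1 : ℝ) / N)) ^ m := by
    rw [← Real.rpow_natCast ((1 / 2 : ℝ) ^ ((1 : ℝ) / N)) m, ← Real.rpow_mul (by norm_num),
      ← Real.rpow_natCast (1 / 2 : ℝ) (m / N)]
    have h3 : (2 : ℝ) = (1 / 2 : ℝ) ^ (-1 : ℝ) := by
      rw [Real.rpow_neg (by norm_num), Real.rpow_one]
      norm_num
    have h4 : (2 : ℝ) * (1 / 2 : ℝ) ^ (1 / (N : ℝ) * m) =
        (1 / 2 : ℝ) ^ ((-1 : ℝ) + 1 / (N : ℝ) * m) := by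
      rw [Real.rpow_add (by norm_num), ← h3]
    rw [h4]
    apply Real.rpow_le_rpow_of_exponent_ge (by norm_num) (by norm_num)
    have h5 : (m : ℝ) < (((m / N : ℕ) : ℝ) + 1) * N := by
      have h6 := Nat.lt_div_mul_add (a := m) (b := N) (by omega)
      have h7 : (m : ℝ) < ((m / N : ℕ) : ℝ) * N + N := by exact_mod_cast h6
      linarith
    have h8 : 1 / (N : ℝ) * m < ((m / N : ℕ) : ℝ) + 1 := by
      rw [one_div, inv_mul_lt_iff₀ hN']
      linarith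
    linarith
  calc a m ≤ (1 / 2) ^ (m / N) * B := h1
    _ ≤ (2 * ((1 / 2 : ℝ) ^ ((1 : ℝ) / N)) ^ m) * (L ^ N * a 0) :=
      mul_le_mul h2 hB3 hB0 (by positivity)
    _ = _ := by ring

variable {k : ℕ} {M : Type*} [TopologicalSpace M] [ChartedSpace (V k) M] [IsManifold (𝓡 k) ∞ M]
  [T2Space M] [CompactSpace M] {f f' : M → M}

theorem D_add (hf : ContMDiff (𝓡 k) (𝓡 k) 1 f) (m i : ℕ) (x : M) (v : V k) :
    Dv k k (f^[m]) (f^[i] x) (Dv k k (f^[i]) x v) = Dv k k (f^[m + i]) x v := by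
  rw [Function.iterate_add, Dv_comp x (diff_of (iter_smooth hf m) _) (diff_of (iter_smooth hf i) _)]
  rfl

theorem D_back (hf : ContMDiff (𝓡 k) (𝓡 k) 1 f) (hf' : ContMDiff (𝓡 k) (𝓡 k) 1 f')
    (h : ∀ x, f' (f x) = x) (m j : ℕ) (x : M) (v : V k) :
    Dv k k (f'^[m]) (f^[m + j] x) (Dv k k (f^[m + j]) x v) = Dv k k (f^[j]) x v := by
  have h1 := Dv_comp (f := f^[m + j]) (g := f'^[m]) x (diff_of (iter_smooth hf' m) _)
    (diff_of (iter_smooth hf (m + j)) _)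
  have h2 : f'^[m] ∘ f^[m + j] = f^[j] := by
    funext y
    rw [Function.comp_apply, Function.iterate_add_apply]
    exact iter_inv h m _
  rw [h2] at h1
  exact (congrArg (fun L => L v) h1).symm

/-- the vectors with bounded forward orbit -/
noncomputable def Bs {q : TangentBundle (𝓡 k) M → ℝ} (hq : IsTanNorm k M q) (f : M → M) (x : M) :
    Submodule ℝ (V k) where
  carrier := {v | ∃ C : ℝ, ∀ m : ℕ, q ⟨f^[m] x, Dv k k (f^[m]) x v⟩ ≤ C}
  add_mem' := by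
    rintro v w ⟨C, hC⟩ ⟨C', hC'⟩
    refine ⟨C + C', fun m => ?_⟩
    rw [map_add]
    exact (q_add hq _ _ _).trans (add_le_add (hC m) (hC' m))
  zero_mem' := ⟨0, fun m => by rw [map_zero, q_zero hq]⟩
  smul_mem' := by
    rintro c v ⟨C, hC⟩
    refine ⟨|c| * C, fun m => ?_⟩
    rw [map_smul, q_smul hq]
    exact mul_le_mul_of_nonneg_left (hC m) (abs_nonneg c)

variable {q : TangentBundle (𝓡 k) M → ℝ} (hq : IsTanNorm k M q)

theorem Bs_map (hf : ContMDiff (𝓡 k) (𝓡 k) 1 f) {x : M} {v : V k} (hv : v ∈ Bs hq f x) :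
    Dv k k f x v ∈ Bs hq f (f x) := by
  obtain ⟨C, hC⟩ := hv
  refine ⟨C, fun m => ?_⟩
  have h1 := D_add hf m 1 x v
  rw [Function.iterate_one] at h1
  rw [h1]
  have h2 := hC (m + 1)
  rwa [Function.iterate_add_apply, Function.iterate_one] at h2

theorem Bs_map' (hf : ContMDiff (𝓡 k) (𝓡 k) 1 f) (hf' : ContMDiff (𝓡 k) (𝓡 k) 1 f')
    (h : ∀ x, f (f' x) = x) {x : M} {v : V k} (hv : v ∈ Bs hq f x) :
    Dv k k f' x v ∈ Bs hq f (f' x) := by
  obtain ⟨C, hC⟩ := hv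
  refine ⟨max C (q ⟨f' x, Dv k k f' x v⟩), fun m => ?_⟩
  rcases m with _ | m
  · refine le_trans (le_of_eq ?_) (le_max_right _ _)
    have : (f^[0] : M → M) = id := rfl
    rw [this, Dv_id]
    rfl
  · refine le_trans (le_of_eq ?_) ((hC m).trans (le_max_left _ _))
    have h1 := D_add hf m 1 (f' x) (Dv k k f' x v)
    rw [Function.iterate_one, Dv_inv hf' hf h, h] at h1
    rw [← h1, Function.iterate_succ_apply, h]

/-- the property: no local maxima at the scale `N` -/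
def NoMax (q : TangentBundle (𝓡 k) M → ℝ) (f f' : M → M) (N : ℕ) (x : M) : Prop :=
  ∀ v : V k, (∃ m ≤ N, 2 * q ⟨x, v⟩ ≤ q ⟨f^[m] x, Dv k k (f^[m]) x v⟩) ∨
    ∃ m ≤ N, 2 * q ⟨x, v⟩ ≤ q ⟨f'^[m] x, Dv k k (f'^[m]) x v⟩

theorem NoMax.swap {N : ℕ} {x : M} (h : NoMax q f f' N x) : NoMax q f' f N x := fun v => (h v).symm

theorem Bs_decay (hf : ContMDiff (𝓡 k) (𝓡 k) 1 f) (hf' : ContMDiff (𝓡 k) (𝓡 k) 1 f')
    (h : ∀ x, f' (f x) = x) (N : ℕ) (hN : 1 ≤ N) {K : Set M} (hK : ∀ x ∈ K, f x ∈ K)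
    (hP : ∀ x ∈ K, NoMax q f f' N x) : ∃ C μ : ℝ, 0 < C ∧ 0 < μ ∧ μ < 1 ∧
      ∀ x ∈ K, ∀ v ∈ Bs hq f x, ∀ m : ℕ,
        q ⟨f^[m] x, Dv k k (f^[m]) x v⟩ ≤ C * μ ^ m * q ⟨x, v⟩ := by
  obtain ⟨L, hL, hLb⟩ := step_bound hq hf
  obtain ⟨C, μ, hC, hμ, hμ1, hdec⟩ := decay N hN L hL
  refine ⟨C, μ, hC, hμ, hμ1, fun x hx v hv m => ?_⟩
  have h0 : q ⟨f^[0] x, Dv k k (f^[0]) x v⟩ = q ⟨x, v⟩ := by
    have : (f^[0] : M → M) = id := rfl
    rw [this, Dv_id]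
    rfl
  rw [← h0]
  refine hdec (fun m => q ⟨f^[m] x, Dv k k (f^[m]) x v⟩) (fun i => q_nonneg hq _ _) hv
    (fun i => ?_) (fun i hi => ?_) m
  · have h1 := hLb (f^[i] x) (Dv k k (f^[i]) x v)
    have h2 := Dv_iter hf i x v
    show q ⟨f^[i + 1] x, Dv k k (f^[i + 1]) x v⟩ ≤ _
    rw [h2, Function.iterate_succ_apply']
    exact h1
  · have hxi : f^[i] x ∈ K := iter_mem hK i hx
    rcases hP _ hxi (Dv k k (f^[i]) x v) with ⟨m, hm, h1⟩ | ⟨m, hm, h1⟩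
    · refine ⟨m + i, by omega, ?_⟩
      rw [D_add hf, ← Function.iterate_add_apply] at h1
      exact h1
    · obtain ⟨j, rfl⟩ : ∃ j, i = m + j := ⟨i - m, by omega⟩
      refine ⟨j, by omega, ?_⟩
      rw [D_back hf hf' h, Function.iterate_add_apply, iter_inv h] at h1
      rw [Function.iterate_add_apply]
      exact h1

end Run7.h619.PR
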