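import Pool.Agent.Run7.h619.PR.Hyp1

/-!
# Limits of splittings
-/

set_option autoImplicit false
set_option linter.unusedSectionVars false

open Filter Set Metric Bundle
open scoped Manifold ContDiff Topology

namespace Run7.h619.PR

open Pool.Agent.H718R2.G Pool.Agent.TH80.OMS Run7.h619.AX Run7.h619.LA

variable {k : ℕ} {M : Type*} [TopologicalSpace M] [ChartedSpace (V k) M] [IsManifold (𝓡 k) ∞ M]
  [T2Space M] [CompactSpace M] {f f' : M → M}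
  {q : TangentBundle (𝓡 k) M → ℝ} (hq : IsTanNorm k M q)

/-- vectors of `Es` and `Eu` have a uniform angle -/
theorem angle (hf : ContMDiff (𝓡 k) (𝓡 k) 1 f) (hf' : ContMDiff (𝓡 k) (𝓡 k) 1 f')
    (hi : ∀ x, f' (f x) = x) {K : Set M} (hK : ∀ x ∈ K, f x ∈ K) {C μ : ℝ} (hC : 0 < C) (hμ : 0 < μ)
    (hμ1 : μ < 1)
    (hs : ∀ x ∈ K, ∀ v ∈ Bs hq f x, ∀ m : ℕ, q ⟨f^[m] x, Dv k k (f^[m]) x v⟩ ≤ C * μ ^ m * q ⟨x, v⟩)
    (hu : ∀ x ∈ K, ∀ v ∈ Bs hq f' x, ∀ m : ℕ,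
      q ⟨f'^[m] x, Dv k k (f'^[m]) x v⟩ ≤ C * μ ^ m * q ⟨x, v⟩) :
    ∃ D : ℝ, 0 < D ∧ ∀ x ∈ K, ∀ s ∈ Bs hq f x, ∀ u ∈ Bs hq f' x,
      q ⟨x, s⟩ ≤ D * q ⟨x, (s + u : V k)⟩ ∧ q ⟨x, u⟩ ≤ D * q ⟨x, (s + u : V k)⟩ := by
  obtain ⟨L, hL, hLb⟩ := step_bound hq hf
  obtain ⟨m, hm⟩ : ∃ m : ℕ, C * μ ^ m ≤ 1 / 2 := by
    obtain ⟨m, hm⟩ := exists_pow_lt_of_lt_one (show (0 : ℝ) < 1 / (2 * C) by positivity) hμ1
    refine ⟨m, ?_⟩
    have h1 : C * μ ^ m ≤ C * (1 / (2 * C)) := mul_le_mul_of_nonneg_left hm.le hC.le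
    have h2 : C * (1 / (2 * C)) = 1 / 2 := by field_simp
    linarith
  have hgrow : ∀ (i : ℕ) (x : M) (v : V k), q ⟨f^[i] x, Dv k k (f^[i]) x v⟩ ≤ L ^ i * q ⟨x, v⟩ := by
    intro i x v
    induction i with
    | zero =>
      have : (f^[0] : M → M) = id := rfl
      rw [this, Dv_id, pow_zero, one_mul]
      exact le_rfl
    | succ i ih =>
      have h1 := hLb (f^[i] x) (Dv k k (f^[i]) x v)
      rw [Dv_iter hf i x v, Function.iterate_succ_apply']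
      calc _ ≤ L * q ⟨f^[i] x, Dv k k (f^[i]) x v⟩ := h1
        _ ≤ L * (L ^ i * q ⟨x, v⟩) := mul_le_mul_of_nonneg_left ih (by linarith)
        _ = _ := by ring
  have hL0 : 0 ≤ L ^ m := by positivity
  refine ⟨L ^ m + 2, by positivity, fun x hx s hsx u hux => ?_⟩
  have hxm : f^[m] x ∈ K := iter_mem hK m hx
  have hum : Dv k k (f^[m]) x u ∈ Bs hq f' (f^[m] x) := by
    clear hm hxm hL0
    induction m with
    | zero =>
      have : (f^[0] : M → M) = id := rfl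
      rw [this, Dv_id]
      exact hux
    | succ m ih =>
      rw [Dv_iter hf, Function.iterate_succ_apply']
      exact Bs_map' hq hf' hf hi ih
  have e1 := hs x hx s hsx m
  have e2 := hu _ hxm _ hum m
  have e3 : q ⟨f'^[m] (f^[m] x), Dv k k (f'^[m]) (f^[m] x) (Dv k k (f^[m]) x u)⟩ = q ⟨x, u⟩ := by
    have h1 := D_back hf hf' hi m 0 x u
    rw [add_zero] at h1
    rw [h1, iter_inv hi]
    have : (f^[0] : M → M) = id := rfl
    rw [this, Dv_id]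
    rfl
  rw [e3] at e2
  have n1 := q_nonneg hq x s
  have n2 := q_nonneg hq x u
  have n3 := q_nonneg hq (f^[m] x) (Dv k k (f^[m]) x u)
  have n4 := q_nonneg hq x (s + u)
  have e4 : q ⟨f^[m] x, Dv k k (f^[m]) x s⟩ ≤ 1 / 2 * q ⟨x, s⟩ :=
    e1.trans (mul_le_mul_of_nonneg_right hm n1)
  have e5 : q ⟨x, u⟩ ≤ 1 / 2 * q ⟨f^[m] x, Dv k k (f^[m]) x u⟩ :=
    e2.trans (mul_le_mul_of_nonneg_right hm n3)
  have e6 : q ⟨f^[m] x, Dv k k (f^[m]) x u⟩ ≤ q ⟨f^[m] x, Dv k k (f^[m]) x (s + u)⟩ +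
      q ⟨f^[m] x, Dv k k (f^[m]) x s⟩ := by
    have h1 := tanNorm_sub hq (f^[m] x) (Dv k k (f^[m]) x (s + u)) (Dv k k (f^[m]) x s)
    have h2 : Dv k k (f^[m]) x (s + u) - Dv k k (f^[m]) x s = Dv k k (f^[m]) x u := by
      rw [map_add]
      abel
    rw [h2] at h1
    exact h1
  have e7 := hgrow m x (s + u)
  have e8 : q ⟨x, s⟩ ≤ q ⟨x, (s + u : V k)⟩ + q ⟨x, u⟩ := by
    have h1 := tanNorm_sub hq x (s + u) u
    rwa [add_sub_cancel_right] at h1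
  constructor
  · nlinarith
  · nlinarith

theorem closed_dec (hf : ContMDiff (𝓡 k) (𝓡 k) 1 f) (hq : IsTanNorm k M q) (C μ : ℝ) :
    IsClosed {z : TangentBundle (𝓡 k) M | ∀ m : ℕ,
      q (tangentMap (𝓡 k) (𝓡 k) (f^[m]) z) ≤ C * μ ^ m * q z} := by
  have : {z : TangentBundle (𝓡 k) M | ∀ m : ℕ,
      q (tangentMap (𝓡 k) (𝓡 k) (f^[m]) z) ≤ C * μ ^ m * q z} =
      ⋂ m : ℕ, {z | q (tangentMap (𝓡 k) (𝓡 k) (f^[m]) z) ≤ C * μ ^ m * q z} := by
    ext z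
    simp
  rw [this]
  refine isClosed_iInter fun m => isClosed_le ?_ (continuous_const.mul hq.cont)
  exact hq.cont.comp ((iter_smooth hf m).continuous_tangentMap (by simp))

/-- limits of decompositions -/
theorem limit_split (hf : ContMDiff (𝓡 k) (𝓡 k) 1 f) (hf' : ContMDiff (𝓡 k) (𝓡 k) 1 f')
    {P : Set M} {C μ D : ℝ} (hμ : 0 < μ) (hμ1 : μ < 1) (hC : 0 < C)
    (hs : ∀ x ∈ P, ∀ v ∈ Bs hq f x, ∀ m : ℕ, q ⟨f^[m] x, Dv k k (f^[m]) x v⟩ ≤ C * μ ^ m * q ⟨x, v⟩)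
    (hu : ∀ x ∈ P, ∀ v ∈ Bs hq f' x, ∀ m : ℕ,
      q ⟨f'^[m] x, Dv k k (f'^[m]) x v⟩ ≤ C * μ ^ m * q ⟨x, v⟩)
    (hang : ∀ x ∈ P, ∀ s ∈ Bs hq f x, ∀ u ∈ Bs hq f' x,
      q ⟨x, s⟩ ≤ D * q ⟨x, (s + u : V k)⟩ ∧ q ⟨x, u⟩ ≤ D * q ⟨x, (s + u : V k)⟩)
    (hD : 0 < D) (htop : ∀ x ∈ P, Bs hq f x ⊔ Bs hq f' x = ⊤) {x : M} (hx : x ∈ closure P) :
    Bs hq f x ⊔ Bs hq f' x = ⊤ := by
  rw [eq_top_iff]
  rintro v -
  obtain ⟨z, hz⟩ : ∃ z : TangentBundle (𝓡 k) M, z = ⟨x, v⟩ := ⟨_, rfl⟩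
  have hzc : z ∈ closure {z : TangentBundle (𝓡 k) M | z.1 ∈ P} := by
    have hopen := FiberBundle.isOpenMap_proj (V k) (TangentSpace (𝓡 k) : M → Type _)
    have h1 := hopen.preimage_closure_subset_closure_preimage (s := P)
    apply h1
    show z.1 ∈ closure P
    rw [hz]
    exact hx
  rw [mem_closure_iff_ultrafilter] at hzc
  obtain ⟨G, hG, hGz⟩ := hzc
  have hdec : ∀ z : TangentBundle (𝓡 k) M, ∃ s u : V k, z.1 ∈ P →
      s ∈ Bs hq f z.1 ∧ u ∈ Bs hq f' z.1 ∧ s + u = z.2 := by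
    intro z
    by_cases hz : z.1 ∈ P
    · obtain ⟨w, hw⟩ : ∃ w : V k, w = z.2 := ⟨_, rfl⟩
      have h1 : w ∈ Bs hq f z.1 ⊔ Bs hq f' z.1 := by
        have h0 := htop _ hz
        rw [h0]
        exact Submodule.mem_top
      obtain ⟨s, hs, u, hu, h⟩ := Submodule.mem_sup.1 h1
      exact ⟨s, u, fun _ => ⟨hs, hu, h.trans hw⟩⟩
    · exact ⟨0, 0, fun h => absurd h hz⟩
  choose s u hsu using hdec
  obtain ⟨σ, hσ⟩ : ∃ σ : TangentBundle (𝓡 k) M → TangentBundle (𝓡 k) M, σ = fun z => ⟨z.1, s z⟩ :=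
    ⟨_, rfl⟩
  obtain ⟨τ, hτ⟩ : ∃ τ : TangentBundle (𝓡 k) M → TangentBundle (𝓡 k) M, τ = fun z => ⟨z.1, u z⟩ :=
    ⟨_, rfl⟩
  have hGz' : Tendsto id (G : Filter (TangentBundle (𝓡 k) M)) (𝓝 z) := hGz
  have hqz : ∀ᶠ z' in (G : Filter (TangentBundle (𝓡 k) M)), q z' ≤ q z + 1 := by
    have h1 := (hq.cont.tendsto z).comp hGz'
    filter_upwards [h1.eventually (gt_mem_nhds (show q z < q z + 1 by linarith))] with y hy
    exact hy.le
  have hP' : ∀ᶠ z' in (G : Filter (TangentBundle (𝓡 k) M)), z'.1 ∈ P := hG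
  -- the limits
  have hlim : ∀ (σ : TangentBundle (𝓡 k) M → TangentBundle (𝓡 k) M) (S : Set (TangentBundle (𝓡 k) M)),
      (∀ z', (σ z').1 = z'.1) → IsClosed S → (∀ᶠ z' in (G : Filter (TangentBundle (𝓡 k) M)),
        σ z' ∈ S ∧ q (σ z') ≤ D * (q z + 1)) →
      ∃ w : V k, Tendsto σ (G : Filter (TangentBundle (𝓡 k) M)) (𝓝 ⟨x, w⟩) ∧
        (⟨x, w⟩ : TangentBundle (𝓡 k) M) ∈ S := by
    intro σ S h1 hS h2
    have h3 : {z' : TangentBundle (𝓡 k) M | q z' ≤ D * (q z + 1)} ∈ G.map σ :=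
      Ultrafilter.mem_map.2 (h2.mono fun _ h => h.2)
    obtain ⟨w, -, hw⟩ := (cpt_ball hq (D * (q z + 1))).ultrafilter_le_nhds (G.map σ)
      (le_principal_iff.2 h3)
    have hw' : Tendsto σ (G : Filter (TangentBundle (𝓡 k) M)) (𝓝 w) := hw
    have hbase : w.1 = x := by
      have h4 : Tendsto (fun z' => (σ z').1) (G : Filter (TangentBundle (𝓡 k) M)) (𝓝 w.1) :=
        ((FiberBundle.continuous_proj (V k) (TangentSpace (𝓡 k) : M → Type _)).tendsto w).comp hw'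
      have h5 : Tendsto (fun z' : TangentBundle (𝓡 k) M => z'.1)
          (G : Filter (TangentBundle (𝓡 k) M)) (𝓝 z.1) :=
        ((FiberBundle.continuous_proj (V k) (TangentSpace (𝓡 k) : M → Type _)).tendsto z).comp hGz'
      have h6 : (fun z' => (σ z').1) = fun z' : TangentBundle (𝓡 k) M => z'.1 := funext h1
      rw [h6] at h4
      have h7 := tendsto_nhds_unique h4 h5
      rw [h7, hz]
    have hwS : w ∈ S := hS.mem_of_tendsto hw' (h2.mono fun _ h => h.1)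
    obtain ⟨y, w⟩ := w
    have hb : y = x := hbase
    subst hb
    exact ⟨w, hw', hwS⟩
  obtain ⟨w₁, hw₁, hw₁S⟩ := hlim σ _ (fun z' => by rw [hσ]) (closed_dec hf hq C μ) (by
    filter_upwards [hqz, hP'] with y hy hyP
    obtain ⟨h1, h2, h3⟩ := hsu y hyP
    rw [hσ]
    refine ⟨fun m => hs _ hyP _ h1 m, ?_⟩
    have h4 := (hang _ hyP _ h1 _ h2).1
    rw [h3] at h4
    exact h4.trans (mul_le_mul_of_nonneg_left hy hD.le))
  obtain ⟨w₂, hw₂, hw₂S⟩ := hlim τ _ (fun z' => by rw [hτ]) (closed_dec hf' hq C μ) (by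
    filter_upwards [hqz, hP'] with y hy hyP
    obtain ⟨h1, h2, h3⟩ := hsu y hyP
    rw [hτ]
    refine ⟨fun m => hu _ hyP _ h2 m, ?_⟩
    have h4 := (hang _ hyP _ h1 _ h2).2
    rw [h3] at h4
    exact h4.trans (mul_le_mul_of_nonneg_left hy hD.le))
  -- the sum
  have hsum : w₁ + w₂ = v := by
    set e := trivializationAt (V k) (TangentSpace (𝓡 k) : M → Type _) x with he
    have hxe : x ∈ e.baseSet := mem_baseSet_trivializationAt _ _ _
    have hcont : ∀ w : V k, ContinuousAt (fun z' : TangentBundle (𝓡 k) M => (e z').2) ⟨x, w⟩ := by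
      intro w
      have h1 : (⟨x, w⟩ : TangentBundle (𝓡 k) M) ∈ e.source := by
        rw [e.mem_source]
        exact hxe
      exact continuous_snd.continuousAt.comp (e.continuousAt h1)
    have t1 : Tendsto (fun z' => (e (σ z')).2) (G : Filter (TangentBundle (𝓡 k) M))
        (𝓝 (e ⟨x, w₁⟩).2) := (hcont w₁).tendsto.comp hw₁
    have t2 : Tendsto (fun z' => (e (τ z')).2) (G : Filter (TangentBundle (𝓡 k) M))
        (𝓝 (e ⟨x, w₂⟩).2) := (hcont w₂).tendsto.comp hw₂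
    have t3 : Tendsto (fun z' : TangentBundle (𝓡 k) M => (e z').2)
        (G : Filter (TangentBundle (𝓡 k) M)) (𝓝 (e ⟨x, v⟩).2) := by
      rw [hz] at hGz'
      exact (hcont v).tendsto.comp hGz'
    have hlin : ∀ y ∈ e.baseSet, ∀ a b : V k,
        (e (⟨y, (a + b : V k)⟩ : TangentBundle (𝓡 k) M)).2 =
          (e (⟨y, a⟩ : TangentBundle (𝓡 k) M)).2 + (e (⟨y, b⟩ : TangentBundle (𝓡 k) M)).2 := by
      intro y hy a b
      have h1 := e.coe_linearMapAt_of_mem (R := ℝ) hy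
      have h2 : e.linearMapAt ℝ y (a + b : V k) = e.linearMapAt ℝ y a + e.linearMapAt ℝ y b :=
        map_add _ _ _
      rw [h1] at h2
      exact h2
    have hev : ∀ᶠ z' in (G : Filter (TangentBundle (𝓡 k) M)),
        (e (σ z')).2 + (e (τ z')).2 = (e z').2 := by
      have hb : ∀ᶠ z' in (G : Filter (TangentBundle (𝓡 k) M)), z'.1 ∈ e.baseSet := by
        have h5 : Tendsto (fun z' : TangentBundle (𝓡 k) M => z'.1)
            (G : Filter (TangentBundle (𝓡 k) M)) (𝓝 z.1) :=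
          ((FiberBundle.continuous_proj (V k) (TangentSpace (𝓡 k) : M → Type _)).tendsto z).comp hGz'
        rw [hz] at h5
        exact h5.eventually (e.open_baseSet.mem_nhds hxe)
      filter_upwards [hb, hP'] with y hy hyP
      obtain ⟨-, -, h3⟩ := hsu y hyP
      rw [hσ, hτ]
      show (e ⟨y.1, s y⟩).2 + (e ⟨y.1, u y⟩).2 = (e y).2
      rw [← hlin y.1 hy, h3]
    have t4 := tendsto_nhds_unique ((t1.add t2).congr' hev) t3
    rw [← hlin x hxe] at t4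
    have h1 := e.coe_linearMapAt_of_mem (R := ℝ) hxe
    have h2 : e.linearMapAt ℝ x (w₁ + w₂ : V k) = e.linearMapAt ℝ x v := by
      rw [h1]
      exact t4
    have h3 := e.symmL_continuousLinearMapAt (R := ℝ) hxe (w₁ + w₂ : V k)
    have h4 := e.symmL_continuousLinearMapAt (R := ℝ) hxe v
    have h5 : e.continuousLinearMapAt ℝ x (w₁ + w₂ : V k) = e.continuousLinearMapAt ℝ x v := h2
    rw [h5, h4] at h3
    exact h3.symm
  have hbd : ∀ (f : M → M) (w : V k), (∀ m : ℕ,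
      q (tangentMap (𝓡 k) (𝓡 k) (f^[m]) ⟨x, w⟩) ≤ C * μ ^ m * q ⟨x, w⟩) → w ∈ Bs hq f x := by
    intro f w h
    refine ⟨C * q ⟨x, w⟩, fun m => (h m).trans ?_⟩
    have h1 : μ ^ m ≤ 1 := pow_le_one₀ hμ.le hμ1.le
    have h2 := q_nonneg hq x w
    have h3 : C * μ ^ m ≤ C := by nlinarith
    exact mul_le_mul_of_nonneg_right h3 h2
  rw [← hsum]
  exact Submodule.add_mem_sup (hbd f w₁ hw₁S) (hbd f' w₂ hw₂S)

end Run7.h619.PR
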