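import Pool.Agent.Run7.h619.PR.Hyp2

/-!
# Orbits, closedness of the maximum condition, the splitting at periodic points
-/

set_option autoImplicit false
set_option linter.unusedSectionVars false

open Filter Set Metric Bundle
open scoped Manifold ContDiff Topology

namespace Run7.h619.PR

open Pool.Agent.H718R2.G Pool.Agent.TH80.OMS Run7.h619.AX Run7.h619.LA

/-- the orbit of a point -/
def zo {M : Type*} (f f' : M → M) (x : M) : ℤ → M
  | Int.ofNat n => f^[n] x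
  | Int.negSucc n => f'^[n + 1] x

theorem zo_step {M : Type*} {f f' : M → M} (h' : ∀ x, f (f' x) = x) (x : M) (i : ℤ) :
    f (zo f f' x i) = zo f f' x (i + 1) := by
  rcases i with n | n
  · show f (f^[n] x) = f^[n + 1] x
    rw [Function.iterate_succ_apply']
  · rcases n with _ | n
    · show f (f' x) = x
      exact h' x
    · have e : Int.negSucc (n + 1) + 1 = Int.negSucc n := rfl
      rw [e]
      show f (f'^[n + 1 + 1] x) = f'^[n + 1] x
      rw [Function.iterate_succ_apply', h']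

theorem zo_per {M : Type*} {f f' : M → M} (h : ∀ x, f' (f x) = x) (h' : ∀ x, f (f' x) = x) {x : M}
    {p : ℕ} (hp : f^[p] x = x) (i : ℤ) : zo f f' x (i + p) = zo f f' x i := by
  have hinj : Function.Injective f := Function.LeftInverse.injective h
  induction i using Int.induction_on with
  | zero =>
    rw [zero_add]
    exact hp
  | succ i ih =>
    have h1 := zo_step h' x ((i : ℤ) + p)
    have h2 := zo_step h' x (i : ℤ)
    rw [ih, h2] at h1
    rw [show (i : ℤ) + 1 + p = i + p + 1 by ring]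
    exact h1.symm
  | pred i ih =>
    apply hinj
    rw [zo_step h', zo_step h', show -(i : ℤ) - 1 + 1 = -i by ring,
      show -(i : ℤ) - 1 + p + 1 = -i + p by ring]
    exact ih

variable {k : ℕ} {M : Type*} [TopologicalSpace M] [ChartedSpace (V k) M] [IsManifold (𝓡 k) ∞ M]
  [T2Space M] [CompactSpace M] {f f' : M → M}
  {q : TangentBundle (𝓡 k) M → ℝ} (hq : IsTanNorm k M q)

/-- the orbit of a vector -/
noncomputable def vo (f f' : M → M) (x : M) (v : V k) : ℤ → V k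
  | Int.ofNat n => Dv k k (f^[n]) x v
  | Int.negSucc n => Dv k k (f'^[n + 1]) x v

theorem vo_step (hf : ContMDiff (𝓡 k) (𝓡 k) 1 f) (hf' : ContMDiff (𝓡 k) (𝓡 k) 1 f')
    (h' : ∀ x, f (f' x) = x) (x : M) (v : V k) (i : ℤ) :
    vo f f' x v (i + 1) = Dv k k f (zo f f' x i) (vo f f' x v i) := by
  rcases i with n | n
  · exact Dv_iter hf n x v
  · rcases n with _ | n
    · show Dv k k (f^[0]) x v = Dv k k f (f' x) (Dv k k f' x v)
      rw [Dv_inv hf' hf h']
      have : (f^[0] : M → M) = id := rfl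
      rw [this, Dv_id]
      rfl
    · have e : Int.negSucc (n + 1) + 1 = Int.negSucc n := rfl
      rw [e]
      show Dv k k (f'^[n + 1]) x v = Dv k k f (f'^[n + 1 + 1] x) (Dv k k (f'^[n + 1 + 1]) x v)
      rw [Dv_iter hf' (n + 1), Function.iterate_succ_apply', Dv_inv hf' hf h']

/-- the maximum condition at periodic points -/
theorem noMax_per (hq : IsTanNorm k M q) (hf : ContMDiff (𝓡 k) (𝓡 k) 1 f)
    (hf' : ContMDiff (𝓡 k) (𝓡 k) 1 f')
    (h : ∀ x, f' (f x) = x) (h' : ∀ x, f (f' x) = x) {N₀ : ℕ}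
    (H : ∀ (x : ℤ → M) (v : ℤ → V k) (p : ℕ), 1 ≤ p → (∀ i, x (i + p) = x i) →
      (∀ i, f (x i) = x (i + 1)) → (∀ i, v (i + 1) = Dv k k f (x i) (v i)) → v 0 ≠ 0 →
      ∃ i : ℤ, |i| ≤ N₀ ∧ 2 * q ⟨x 0, v 0⟩ ≤ q ⟨x i, v i⟩) {x : M} {p : ℕ} (hp1 : 1 ≤ p)
    (hp : f^[p] x = x) : NoMax q f f' (N₀ + 1) x := by
  intro v
  by_cases hv : v = 0
  · left
    refine ⟨0, Nat.zero_le _, ?_⟩
    rw [hv, map_zero, q_zero hq, q_zero hq, mul_zero]
  · have hx0 : zo f f' x 0 = x := rfl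
    have hv0 : vo f f' x v 0 = v := by
      show Dv k k (f^[0]) x v = v
      have : (f^[0] : M → M) = id := rfl
      rw [this, Dv_id]
      rfl
    obtain ⟨i, hi, hle⟩ := H (zo f f' x) (vo f f' x v) p hp1 (zo_per h h' hp) (zo_step h' x)
      (vo_step hf hf' h' x v) (by rw [hv0]; exact hv)
    rw [hx0, hv0] at hle
    rcases i with n | n
    · left
      refine ⟨n, ?_, hle⟩
      rw [abs_le] at hi
      have : ((n : ℕ) : ℤ) ≤ N₀ := hi.2
      omega
    · right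
      refine ⟨n + 1, ?_, hle⟩
      rw [abs_le] at hi
      have h1 := hi.1
      rw [Int.negSucc_eq] at h1
      omega

/-- the maximum condition is closed -/
theorem noMax_closure (hf : ContMDiff (𝓡 k) (𝓡 k) 1 f) (hf' : ContMDiff (𝓡 k) (𝓡 k) 1 f')
    (hq : IsTanNorm k M q) {N : ℕ} {P : Set M} (hP : ∀ x ∈ P, NoMax q f f' N x) {x : M}
    (hx : x ∈ closure P) : NoMax q f f' N x := by
  intro v
  have hcl : ∀ g : M → M, ContMDiff (𝓡 k) (𝓡 k) 1 g →
      IsClosed {z : TangentBundle (𝓡 k) M | ∃ m ≤ N, 2 * q z ≤ q (tangentMap (𝓡 k) (𝓡 k) (g^[m]) z)} := by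
    intro g hg
    have : {z : TangentBundle (𝓡 k) M | ∃ m ≤ N, 2 * q z ≤ q (tangentMap (𝓡 k) (𝓡 k) (g^[m]) z)} =
        ⋃ m ∈ Finset.range (N + 1), {z | 2 * q z ≤ q (tangentMap (𝓡 k) (𝓡 k) (g^[m]) z)} := by
      ext z
      simp only [Set.mem_ofPred_eq, mem_iUnion, Finset.mem_range, exists_prop, Nat.lt_succ_iff]
    rw [this]
    refine isClosed_biUnion_finset fun m _ => isClosed_le (continuous_const.mul hq.cont) ?_
    exact hq.cont.comp ((iter_smooth hg m).continuous_tangentMap (by simp))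
  have hS := (hcl f hf).union (hcl f' hf')
  have hopen := FiberBundle.isOpenMap_proj (V k) (TangentSpace (𝓡 k) : M → Type _)
  have h1 := hopen.preimage_closure_subset_closure_preimage (s := P)
  have h2 : (⟨x, v⟩ : TangentBundle (𝓡 k) M) ∈ closure (TotalSpace.proj ⁻¹' P) := h1 hx
  have h3 : (TotalSpace.proj ⁻¹' P : Set (TangentBundle (𝓡 k) M)) ⊆
      ({z | ∃ m ≤ N, 2 * q z ≤ q (tangentMap (𝓡 k) (𝓡 k) (f^[m]) z)} ∪
        {z | ∃ m ≤ N, 2 * q z ≤ q (tangentMap (𝓡 k) (𝓡 k) (f'^[m]) z)}) :=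
    fun z hz => hP z.1 hz z.2
  exact closure_minimal h3 hS h2

/-- on a fibre `q` is bounded by the norm -/
theorem q_le_norm (hq : IsTanNorm k M q) (x : M) : ∃ K : ℝ, 0 < K ∧ ∀ v : V k, q ⟨x, v⟩ ≤ K * ‖v‖ := by
  have hc : Continuous fun v : V k => q ⟨x, v⟩ := by
    have h1 := FiberBundle.continuous_totalSpaceMk (V k) (TangentSpace (𝓡 k) : M → Type _) x
    exact hq.cont.comp h1
  obtain ⟨K, hK⟩ := (isCompact_closedBall (0 : V k) 1).bddAbove_image hc.continuousOn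
  refine ⟨max 1 K, lt_of_lt_of_le one_pos (le_max_left _ _), fun v => ?_⟩
  by_cases hv : v = 0
  · rw [hv, q_zero hq, norm_zero, mul_zero]
  · have h1 : 0 < ‖v‖ := norm_pos_iff.2 hv
    have h2 : q ⟨x, (‖v‖⁻¹ • v : V k)⟩ ≤ K := hK ⟨‖v‖⁻¹ • v, by
      rw [mem_closedBall_zero_iff, norm_smul, norm_inv, norm_norm, inv_mul_cancel₀ h1.ne'], rfl⟩
    rw [q_smul hq, abs_of_pos (inv_pos.2 h1), inv_mul_le_iff₀ h1] at h2
    rw [mul_comm]
    exact h2.trans (mul_le_mul_of_nonneg_left (le_max_right _ _) h1.le)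

/-- the splitting at periodic points -/
theorem sup_per (hf : ContMDiff (𝓡 k) (𝓡 k) 1 f) (hf' : ContMDiff (𝓡 k) (𝓡 k) 1 f')
    (h : ∀ x, f' (f x) = x) (h' : ∀ x, f (f' x) = x) {x : M} {p : ℕ} (hp1 : 1 ≤ p)
    (hp : f^[p] x = x) (hdis : ∀ v, v ∈ Bs hq f x → v ∈ Bs hq f' x → v = 0) :
    Bs hq f x ⊔ Bs hq f' x = ⊤ := by
  have hp' : f'^[p] x = x := by
    have h1 := iter_inv h p x
    rwa [hp] at h1
  have hg := iter_smooth hf p
  have hg' := iter_smooth hf' p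
  have i1 : ∀ v, Dv k k (f'^[p]) x (Dv k k (f^[p]) x v) = v := by
    intro v
    have h1 := Dv_inv hg hg' (iter_inv h p) x v
    rwa [hp] at h1
  have i2 : ∀ v, Dv k k (f^[p]) x (Dv k k (f'^[p]) x v) = v := by
    intro v
    have h1 := Dv_inv hg' hg (iter_inv h' p) x v
    rwa [hp'] at h1
  obtain ⟨A, hA, hA'⟩ : ∃ A : V k ≃L[ℝ] V k, (∀ v, A v = Dv k k (f^[p]) x v) ∧
      ∀ v, A.symm v = Dv k k (f'^[p]) x v :=
    ⟨ContinuousLinearEquiv.equivOfInverse (Dv k k (f^[p]) x) (Dv k k (f'^[p]) x) i1 i2,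
      fun _ => rfl, fun _ => rfl⟩
  obtain ⟨K, hK, hKq⟩ := q_le_norm hq x
  have key : ∀ (g : M → M) (B : V k ≃L[ℝ] V k), ContMDiff (𝓡 k) (𝓡 k) 1 g → g^[p] x = x →
      (∀ v, B v = Dv k k (g^[p]) x v) → ∀ v, (∃ C : ℝ, ∀ n : ℕ, ‖(B ^ (n : ℤ)) v‖ ≤ C) →
      v ∈ Bs hq g x := by
    intro g B hgs hgx hB v hv
    obtain ⟨C, hC⟩ := hv
    have hfix : ∀ n : ℕ, g^[p * n] x = x := by
      intro n
      rw [Function.iterate_mul]
      exact Function.iterate_fixed hgx n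
    have hpow : ∀ n : ℕ, Dv k k (g^[p * n]) x v = (B ^ (n : ℤ)) v := by
      intro n
      induction n with
      | zero =>
        rw [Nat.cast_zero, z0]
        have : (g^[p * 0] : M → M) = id := rfl
        rw [this, Dv_id]
        rfl
      | succ n ih =>
        have h1 := D_add hgs p (p * n) x v
        rw [hfix, ih] at h1
        rw [Nat.cast_succ, zsucc, hB, h1, show p + p * n = p * (n + 1) by ring]
    obtain ⟨L, hL, hLb⟩ := step_bound hq hgs
    have hgrow : ∀ (i : ℕ) (w : V k), q ⟨g^[i] x, Dv k k (g^[i]) x w⟩ ≤ L ^ i * q ⟨x, w⟩ := by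
      intro i w
      induction i with
      | zero =>
        have : (g^[0] : M → M) = id := rfl
        rw [this, Dv_id, pow_zero, one_mul]
        exact le_rfl
      | succ i ih =>
        have h1 := hLb (g^[i] x) (Dv k k (g^[i]) x w)
        rw [Dv_iter hgs i x w, Function.iterate_succ_apply']
        calc _ ≤ L * q ⟨g^[i] x, Dv k k (g^[i]) x w⟩ := h1
          _ ≤ L * (L ^ i * q ⟨x, w⟩) := mul_le_mul_of_nonneg_left ih (by linarith)
          _ = _ := by ring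
    refine ⟨L ^ p * (K * C), fun m => ?_⟩
    obtain ⟨n, r, hr, hm⟩ : ∃ n r : ℕ, r < p ∧ r + p * n = m :=
      ⟨m / p, m % p, Nat.mod_lt _ hp1, Nat.mod_add_div m p⟩
    have h1 := D_add hgs r (p * n) x v
    rw [hfix, hpow, hm] at h1
    have h2 : g^[m] x = g^[r] x := by
      rw [← hm, Function.iterate_add_apply, hfix]
    rw [h2, ← h1]
    have h3 : 0 ≤ q ⟨x, (B ^ (n : ℤ)) v⟩ := q_nonneg hq _ _
    have h4 : L ^ r ≤ L ^ p := pow_le_pow_right₀ hL hr.le
    calc _ ≤ L ^ r * q ⟨x, (B ^ (n : ℤ)) v⟩ := hgrow r _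
      _ ≤ L ^ p * q ⟨x, (B ^ (n : ℤ)) v⟩ := mul_le_mul_of_nonneg_right h4 h3
      _ ≤ L ^ p * (K * C) := by
        apply mul_le_mul_of_nonneg_left _ (by positivity)
        exact (hKq _).trans (mul_le_mul_of_nonneg_left (hC n) hK.le)
  have e1 : ∀ v, v ∈ Sub A {i | 0 ≤ i} → v ∈ Bs hq f x := by
    rintro v ⟨C, hC⟩
    exact key f A hf hp hA v ⟨C, fun n => hC n (Int.natCast_nonneg n)⟩
  have e2 : ∀ v, v ∈ Sub A {i | i ≤ 0} → v ∈ Bs hq f' x := by
    rintro v ⟨C, hC⟩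
    refine key f' A.symm hf' hp' hA' v ⟨C, fun n => ?_⟩
    have h1 : (A.symm ^ (n : ℤ)) v = (A ^ (-(n : ℤ))) v := by
      have : A.symm = A⁻¹ := rfl
      rw [this, inv_zpow']
    rw [h1]
    exact hC _ (by
      show -(n : ℤ) ≤ 0
      omega)
  have hyp : ∀ v, Bd A univ v → v = 0 := by
    rintro v ⟨C, hC⟩
    exact hdis v (e1 v ⟨C, fun i _ => hC i trivial⟩) (e2 v ⟨C, fun i _ => hC i trivial⟩)
  have hc := (split A hyp).sup_eq_top
  rw [eq_top_iff, ← hc]
  exact sup_le_sup e1 e2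

end Run7.h619.PR
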